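import Mathlib

open Filter Topology

namespace Pool.Agent.V11111.BE

/-- The sequence `ε` over `{0, …, ⌊β⌋}` (where `ε i` is the digit number `i + 1`) is an expansion
of `x` in base `β`, that is `x = ∑ ε i * β^{-(i+1)}`. -/
def IsExpansion (β x : ℝ) (ε : ℕ → ℕ) : Prop :=
  (∀ i, ε i ≤ ⌊β⌋₊) ∧ HasSum (fun i => (ε i : ℝ) / β ^ (i + 1)) x

/-- The digit `k` has frequency `l` in the sequence `ε`. -/
def HasFreq (ε : ℕ → ℕ) (k : ℕ) (l : ℝ) : Prop :=
  Tendsto (fun n : ℕ => (((Finset.range n).filter fun i => ε i = k).card : ℝ) / n) atTop (𝓝 l)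

/-- The sequence `ε` is balanced over the alphabet `{0, …, ⌊β⌋}`: the frequencies of the digits
`k` and `⌊β⌋ - k` exist and agree, for every digit `k`. -/
def Balanced (β : ℝ) (ε : ℕ → ℕ) : Prop :=
  ∀ k ≤ ⌊β⌋₊, ∃ l, HasFreq ε k l ∧ HasFreq ε (⌊β⌋₊ - k) l

end Pool.Agent.V11111.BE
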