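import Pool.Agent.V11111.BE.Good
import Pool.Agent.V11111.BE.Defs

open MeasureTheory Set Filter Topology
open scoped ENNReal

namespace Pool.Agent.V11111.BE

noncomputable section

variable {β c : ℝ} {m : ℕ}

lemma good_expansion (S : Sys β c m) (hβ : 1 < β) (hm : ⌊β⌋₊ = m) (hc : β * c = c + m)
    {x y : ℝ} (h : S.GoodPt (x, y)) : IsExpansion β x (dig (S.W (x, y))) := by
  have hβ0 : 0 < β := by linarith
  refine ⟨fun i => ?_, ?_⟩
  · rw [hm]
    exact dig_le (S.W_ne _) (fun n => S.dig_le _) i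
  · exact hasSum_of_blocks hβ (S.W_ne _) (fun n => S.dig_le _)
      (fun n => S.good_mem hβ0 hc h n) (fun n => S.value hβ0 (x, y) n)

lemma good_balanced (S : Sys β c m) (hβ : 1 < β) (hm : ⌊β⌋₊ = m) (hc0 : 0 < c)
    (hc : β * c = c + m) {x y : ℝ} (h : S.GoodPt (x, y)) :
    Balanced β (dig (S.W (x, y))) := by
  have hβ0 : 0 < β := by linarith
  intro k hk
  rw [hm] at hk ⊢
  have hf : ∀ j, HasFreq (dig (S.W (x, y))) j (S.nu j / S.ell) := fun j =>
    freq_of_blocks (S.W_ne _) j (S.ell_pos hβ0 hc0 hc) h.len (h.cnt j)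
  refine ⟨S.nu k / S.ell, hf k, ?_⟩
  rw [← S.nu_symm hβ0 hc0 hc hk]
  exact hf (m - k)

theorem continuum_of_sys (S : Sys β c m) (hβ : 1 < β) (hm : ⌊β⌋₊ = m) (hc0 : 0 < c)
    (hc : β * c = c + m) : ∀ᵐ x ∂(volume.restrict (Icc 0 c)),
    Cardinal.mk {ε : ℕ → ℕ // IsExpansion β x ε ∧ Balanced β ε} = Cardinal.continuum := by
  have hβ0 : 0 < β := by linarith
  have h0 : ∀ᵐ ω ∂((mu1 c).prod mu2), S.GoodPt ω := S.ae_good hβ0 hc0 hc
  have := mu1_prob hc0
  have h1 : ∀ᵐ x ∂(mu1 c), ∀ᵐ y ∂mu2, S.GoodPt (x, y) := Measure.ae_ae_of_ae_prod h0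
  have hne : ENNReal.ofReal c⁻¹ ≠ 0 := by
    rw [Ne, ENNReal.ofReal_eq_zero, not_le]
    positivity
  unfold mu1 at h1
  rw [Measure.ae_ennreal_smul_measure_iff hne] at h1
  filter_upwards [h1] with x hx
  apply le_antisymm
  · refine (Cardinal.mk_subtype_le _).trans ?_
    rw [← Cardinal.power_def, Cardinal.mk_nat, Cardinal.aleph0_power_aleph0]
  · -- a compact set of good second coordinates
    set N : Set ℝ := toMeasurable mu2 {y | ¬ S.GoodPt (x, y)} with hN
    have hN0 : mu2 N = 0 := by rw [hN, measure_toMeasurable]; exact hx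
    have hNm : MeasurableSet N := measurableSet_toMeasurable _ _
    have hNc : ∀ y ∈ Nᶜ, S.GoodPt (x, y) := by
      intro y hy
      by_contra hb
      exact hy (subset_toMeasurable mu2 _ hb)
    have hpos : 0 < mu2 Nᶜ := by
      have h2 : mu2 Nᶜ = 1 := by
        rw [measure_compl hNm (measure_ne_top _ _), hN0, measure_univ, tsub_zero]
      rw [h2]; exact one_pos
    obtain ⟨K, hKs, hKc, hK0⟩ := hNm.compl.exists_lt_isCompact hpos
    have hKunc : ¬ K.Countable := by
      intro hK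
      have h3 : mu2 K = 0 := by
        unfold mu2
        exact hK.measure_zero _
      rw [h3] at hK0
      exact lt_irrefl _ hK0
    obtain ⟨f, hf1, -, hf3⟩ := hKc.isClosed.exists_nat_bool_injection_of_not_countable hKunc
    have hgood : ∀ b, S.GoodPt (x, f b) := fun b => hNc _ (hKs (hf1 (mem_range_self b)))
    have h4 : Cardinal.mk (ℕ → Bool) ≤
        Cardinal.mk {ε : ℕ → ℕ // IsExpansion β x ε ∧ Balanced β ε} := by
      apply Cardinal.mk_le_of_injective (f := fun b => ⟨dig (S.W (x, f b)),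
        good_expansion S hβ hm hc (hgood b), good_balanced S hβ hm hc0 hc (hgood b)⟩)
      intro b b' hbb
      have h5 : dig (S.W (x, f b)) = dig (S.W (x, f b')) := congrArg Subtype.val hbb
      exact hf3 (S.inj hβ0 hc0 hc (hgood b) (hgood b') h5)
    have h6 : Cardinal.mk (ℕ → Bool) = Cardinal.continuum := by
      rw [← Cardinal.power_def, Cardinal.mk_nat, Cardinal.mk_bool]
      exact Cardinal.two_power_aleph0
    rw [← h6]
    exact h4

end

end Pool.Agent.V11111.BE
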