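import Pool.Agent.V11111.BE.Til
import Pool.Agent.V11111.BE.Card

open MeasureTheory Set Filter Topology
open scoped ENNReal

namespace Pool.Agent.V11111.BE

noncomputable section

variable {β c : ℝ} {m : ℕ}

lemma tile_mir (hβ : 0 < β) (hc : β * c = c + m) {w : List ℕ} (hw : ∀ k ∈ w, k ≤ m) (x : ℝ) :
    x ∈ tile β c (mir m w) ↔ c - x ∈ tile β c w := by
  have h1 : fw β (mir m w) 0 = c - fw β w c := by
    have := fw_mir hβ hc hw c
    rwa [sub_self] at this
  have h2 : fw β w c = fw β w 0 + c / β ^ w.length := fw_eq hβ w c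
  rw [tile_eq hβ, tile_eq hβ]
  show (fw β (mir m w) 0 ≤ x ∧ x ≤ fw β (mir m w) 0 + c / β ^ (mir m w).length) ↔
    (fw β w 0 ≤ c - x ∧ c - x ≤ fw β w 0 + c / β ^ w.length)
  rw [h1, h2, mir_length]
  constructor
  · rintro ⟨a, b⟩
    constructor <;> linarith
  · rintro ⟨a, b⟩
    constructor <;> linarith

lemma tsum_bool_prod {κ : Type*} (f : Bool × κ → ℝ≥0∞) :
    ∑' a, f a = ∑' k, f (true, k) + ∑' k, f (false, k) := by
  have h := ENNReal.tsum_prod (f := fun (b : Bool) (k : κ) => f (b, k))
  have h2 : ∑' (b : Bool) (k : κ), f (b, k) = ∑' k, f (true, k) + ∑' k, f (false, k) := by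
    rw [tsum_fintype, Fintype.sum_bool]
  rw [← h2, ← h]

/-- ingredients of the left half -/
structure Half (β c : ℝ) (m : ℕ) where
  K : Type
  cK : Countable K
  w : K → List ℕ
  s : K → Option Bool
  dig : ∀ a, ∀ k ∈ w a, k ≤ m
  ne : ∀ a, w a ≠ []
  sub : ∀ a, tile β c (w a) ⊆ Iio (c / 2)
  dis : ∀ a a', a ≠ a' → Disjoint (tile β c (w a)) (tile β c (w a')) ∨
    ((w a).head? ≠ (w a').head? ∧ ∃ b, s a = some b ∧ s a' = some (!b))
  tot : ∑' a, pr β (w a) (s a) = ENNReal.ofReal (1 / 2)
  len : ∑' a, pr β (w a) (s a) * ((w a).length : ℝ≥0∞) ≠ ⊤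
  split : ∃ a, s a ≠ none

lemma pr_mir (w : List ℕ) (s : Option Bool) : pr β (mir m w) s = pr β w s := by
  unfold pr
  rw [mir_length]

lemma head_mir (w : List ℕ) : (mir m w).head? = w.head?.map (fun k => m - k) := by
  rcases w with _ | ⟨k, w⟩
  · rfl
  · rfl

lemma head_mir_ne {w w' : List ℕ} (hw : ∀ k ∈ w, k ≤ m) (hw' : ∀ k ∈ w', k ≤ m)
    (h : w.head? ≠ w'.head?) : (mir m w).head? ≠ (mir m w').head? := by
  intro e
  apply h
  rcases w with _ | ⟨k, w⟩
  · rcases w' with _ | ⟨k', w'⟩
    · rfl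
    · exact absurd e (by simp [mir])
  · rcases w' with _ | ⟨k', w'⟩
    · exact absurd e (by simp [mir])
    · have e' : some (m - k) = some (m - k') := e
      have e2 := Option.some.inj e'
      have h1 := hw k List.mem_cons_self
      have h2 := hw' k' List.mem_cons_self
      show some k = some k'
      congr 1
      omega

/-- doubling a half -/
def Half.toSys (H : Half β c m) (hβ : 0 < β) (hc : β * c = c + m) : Sys β c m where
  A := Bool × H.K
  cA := by
    have := H.cK
    infer_instance
  w := fun a => if a.1 then mir m (H.w a.2) else H.w a.2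
  s := fun a => H.s a.2
  flip := Equiv.prodCongr Equiv.boolNot (Equiv.refl _)
  dig_le := by
    rintro ⟨_ | _, a⟩
    · exact H.dig a
    · exact mir_digits m _
  ne := by
    rintro ⟨_ | _, a⟩
    · exact H.ne a
    · intro h
      have h1 : mir m (H.w a) = [] := h
      have h2 := mir_length m (H.w a)
      rw [h1] at h2
      exact H.ne a (List.length_eq_zero_iff.1 h2.symm)
  dis := by
    have hl : ∀ a, ∀ x ∈ tile β c (H.w a), x < c / 2 := fun a x hx => H.sub a hx
    have hr : ∀ a, ∀ x ∈ tile β c (mir m (H.w a)), c / 2 < x := by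
      intro a x hx
      rw [tile_mir hβ hc (H.dig a)] at hx
      have := hl a _ hx
      linarith
    rintro ⟨_ | _, a⟩ ⟨_ | _, a'⟩ hne
    · exact H.dis a a' fun e => hne (by rw [e])
    · left
      show Disjoint (tile β c (H.w a)) (tile β c (mir m (H.w a')))
      rw [Set.disjoint_left]
      intro x hx hx'
      linarith [hl a x hx, hr a' x hx']
    · left
      show Disjoint (tile β c (mir m (H.w a))) (tile β c (H.w a'))
      rw [Set.disjoint_left]
      intro x hx hx'
      linarith [hl a' x hx', hr a x hx]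
    · rcases H.dis a a' (fun e => hne (by rw [e])) with h | ⟨h1, h2⟩
      · left
        show Disjoint (tile β c (mir m (H.w a))) (tile β c (mir m (H.w a')))
        rw [Set.disjoint_left]
        intro x hx hx'
        rw [tile_mir hβ hc (H.dig _)] at hx hx'
        exact Set.disjoint_left.1 h hx hx'
      · right
        exact ⟨head_mir_ne (H.dig a) (H.dig a') h1, h2⟩
  tot := by
    rw [tsum_bool_prod]
    have h1 : ∀ a, pr β (mir m (H.w a)) (H.s a) = pr β (H.w a) (H.s a) := fun a => pr_mir _ _
    show (∑' a, pr β (mir m (H.w a)) (H.s a)) + (∑' a, pr β (H.w a) (H.s a)) = 1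
    simp only [h1]
    rw [H.tot, ← ENNReal.ofReal_add (by norm_num) (by norm_num)]
    norm_num
  len := by
    rw [tsum_bool_prod]
    apply ENNReal.add_ne_top.2
    constructor
    · have h1 : ∀ a, pr β (mir m (H.w a)) (H.s a) * ((mir m (H.w a)).length : ℝ≥0∞)
          = pr β (H.w a) (H.s a) * ((H.w a).length : ℝ≥0∞) := by
        intro a
        rw [pr_mir, mir_length]
      show ∑' a, pr β (mir m (H.w a)) (H.s a) * ((mir m (H.w a)).length : ℝ≥0∞) ≠ ⊤
      simp only [h1]
      exact H.len
    · exact H.len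
  split := by
    obtain ⟨a, ha⟩ := H.split
    exact ⟨(false, a), ha⟩
  wflip := by
    rintro ⟨_ | _, a⟩
    · rfl
    · show H.w a = mir m (mir m (H.w a))
      rw [mir_mir (H.dig a)]
  sflip := by
    rintro ⟨b, a⟩
    rfl

lemma pr_none (w : List ℕ) : pr β w none = wt β w := by
  unfold pr wt qw
  rw [mul_one]

lemma pr_some (w : List ℕ) (b : Bool) : pr β w (some b) = wt β w * ENNReal.ofReal (1 / 2) := rfl

/-- gluing the pieces of the left half -/
def glue {U V : Set ℝ} {δ δ' : ℝ} (N : Til β c m U δ) (T : Til β c m V δ') (v : List ℕ)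
    (hv : ∀ k ∈ v, k ≤ m) (hvne : v ≠ []) (hU : U ⊆ Iio (c / 2)) (hV : V ⊆ Iio (c / 2))
    (hvt : tile β c v ⊆ Iio (c / 2)) (hUV : Disjoint U V) (hUv : Disjoint U (tile β c v))
    (hhead : ∀ a, (T.w a).head? ≠ v.head?) (hwt : wt β v = ENNReal.ofReal (δ' / c))
    (hc0 : 0 < c) (h1 : 0 ≤ δ) (h2 : 0 ≤ δ') (hsum : δ + δ' = c / 2) : Half β c m where
  K := N.K ⊕ (Unit ⊕ T.K)
  cK := by
    have := N.cK
    have := T.cK
    infer_instance
  w := Sum.elim N.w (Sum.elim (fun _ => v) T.w)
  s := Sum.elim (fun _ => none) (Sum.elim (fun _ => some false) (fun _ => some true))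
  dig := by
    rintro (a | a | a)
    · exact N.dig a
    · exact hv
    · exact T.dig a
  ne := by
    rintro (a | a | a)
    · exact N.ne a
    · exact hvne
    · exact T.ne a
  sub := by
    rintro (a | a | a)
    · exact (N.sub a).trans hU
    · exact hvt
    · exact (T.sub a).trans hV
  dis := by
    rintro (a | a | a) (a' | a' | a') hne
    · exact Or.inl (N.dis a a' fun e => hne (by rw [e]))
    · exact Or.inl (hUv.mono_left (N.sub a))
    · exact Or.inl (hUV.mono (N.sub a) (T.sub a'))
    · exact Or.inl (hUv.symm.mono_right (N.sub a'))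
    · exact absurd rfl hne
    · exact Or.inr ⟨(hhead a').symm, false, rfl, rfl⟩
    · exact Or.inl (hUV.symm.mono (T.sub a) (N.sub a'))
    · exact Or.inr ⟨hhead a, true, rfl, rfl⟩
    · exact Or.inl (T.dis a a' fun e => hne (by rw [e]))
  tot := by
    rw [tsum_sum_type, tsum_sum_type]
    show ∑' a, pr β (N.w a) none + (∑' _ : Unit, pr β v (some false) +
      ∑' a, pr β (T.w a) (some true)) = _
    simp only [pr_none, pr_some]
    rw [ENNReal.tsum_mul_right, ENNReal.tsum_mul_right, N.tot, T.tot, tsum_fintype,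
      Finset.univ_unique, Finset.sum_singleton, hwt, ← mul_add,
      ← ENNReal.ofReal_add (by norm_num) (by norm_num)]
    norm_num
    rw [← ENNReal.ofReal_add (by positivity) (by positivity), ← add_div, hsum]
    rw [show c / 2 / c = 1 / 2 by field_simp]
  len := by
    rw [tsum_sum_type, tsum_sum_type]
    apply ENNReal.add_ne_top.2
    constructor
    · show ∑' a, pr β (N.w a) none * ((N.w a).length : ℝ≥0∞) ≠ ⊤
      simp only [pr_none]
      exact N.len
    · apply ENNReal.add_ne_top.2
      constructor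
      · rw [tsum_fintype, Finset.univ_unique, Finset.sum_singleton]
        show pr β v (some false) * (v.length : ℝ≥0∞) ≠ ⊤
        rw [pr_some]
        unfold wt
        exact ENNReal.mul_ne_top (ENNReal.mul_ne_top ENNReal.ofReal_ne_top ENNReal.ofReal_ne_top)
          (ENNReal.natCast_ne_top _)
      · show ∑' a, pr β (T.w a) (some true) * ((T.w a).length : ℝ≥0∞) ≠ ⊤
        have e : ∀ a, pr β (T.w a) (some true) * ((T.w a).length : ℝ≥0∞)
            = ENNReal.ofReal (1 / 2) * (wt β (T.w a) * ((T.w a).length : ℝ≥0∞)) := by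
          intro a
          rw [pr_some]
          ring
        simp only [e]
        rw [ENNReal.tsum_mul_left]
        exact ENNReal.mul_ne_top ENNReal.ofReal_ne_top T.len
  split := ⟨Sum.inr (Sum.inl ()), by simp⟩

/-- the system exists -/
theorem exists_sys (P : Par β c m) (hβ2 : 2 < β) (hc1 : 1 < c) (hm : 1 ≤ m) :
    Nonempty (Sys β c m) := by
  have hβ0 := P.hβ0
  have hc0 := P.hc0
  -- the word in the middle of the overlap
  have hs := P.ch (p := 1) (q := c) (by norm_num) hc1 le_rfl
  obtain ⟨g1, g2, g3⟩ := P.geo (p := 1) (q := c) (by norm_num) hc1 le_rfl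
  set v := ch β c m 1 c with hv
  set l := lo β v with hl
  set r := hi β c v with hr
  have hcβ : c / β < c / 2 := by
    apply div_lt_div_of_pos_left hc0 (by norm_num) hβ2
  have hlb : 0 < l / β := by
    have : 0 < l := by linarith
    positivity
  have hlr : l / β < r / β := div_lt_div_of_pos_right g2 hβ0
  have hrb : r / β < c / 2 := lt_trans (div_lt_div_of_pos_right g3 hβ0) hcβ
  -- the two outer pieces
  let N := (mkTil P le_rfl hlb (by linarith)).union
    (mkTil P (p := r / β) (q := c / 2) (by linarith) hrb (by linarith)) (by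
      rw [Set.disjoint_left]
      intro x hx hx'
      linarith [hx.2, hx'.1]) hc0 (by linarith) (by linarith)
  -- the tiles with first digit one
  let T := (mkTil P (p := l - 1) (q := r - 1) (by linarith) (by linarith) (by linarith)).cons 1 hm
    hβ0 (by linarith) hc0
  have hVsub : ∀ x, x ∈ {x : ℝ | β * x - (1 : ℕ) ∈ Ioo (l - 1) (r - 1)} ↔
      (l / β < x ∧ x < r / β) := by
    intro x
    show (l - 1 < β * x - (1 : ℕ) ∧ β * x - (1 : ℕ) < r - 1) ↔ _
    rw [div_lt_iff₀ hβ0, lt_div_iff₀ hβ0]
    push_cast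
    constructor
    · rintro ⟨a, b⟩
      constructor <;> linarith
    · rintro ⟨a, b⟩
      constructor <;> linarith
  have htile : ∀ x, x ∈ tile β c (0 :: v) ↔ (l / β ≤ x ∧ x ≤ r / β) := by
    intro x
    rw [tile_eq hβ0]
    have e1 : lo β (0 :: v) = l / β := by
      show ((0 : ℕ) + fw β v 0) / β = l / β
      rw [Nat.cast_zero, zero_add]
      rfl
    have e2 : hi β c (0 :: v) = r / β := by
      show ((0 : ℕ) + fw β v 0) / β + c / β ^ (v.length + 1) = (fw β v 0 + c / β ^ v.length) / β
      rw [pow_succ]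
      push_cast
      field_simp
      ring
    rw [e1, e2]
    exact Iff.rfl
  have hwt : wt β (0 :: v) = ENNReal.ofReal ((r - 1 - (l - 1)) / β / c) := by
    unfold wt
    congr 1
    have e3 : r - 1 - (l - 1) = c / β ^ v.length := by
      have : r = l + c / β ^ v.length := rfl
      linarith
    rw [e3, List.length_cons, pow_succ]
    field_simp
  refine ⟨(glue N T (0 :: v) ?_ (by simp) ?_ ?_ ?_ ?_ ?_ ?_ hwt hc0 ?_ ?_ ?_).toSys hβ0 P.hc⟩
  · intro k hk
    rcases List.mem_cons.1 hk with rfl | h
    · omega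
    · exact hs.dig k h
  · rintro x (hx | hx)
    · show x < c / 2
      linarith [hx.2]
    · exact hx.2
  · intro x hx
    rw [hVsub] at hx
    show x < c / 2
    linarith [hx.2]
  · intro x hx
    rw [htile] at hx
    show x < c / 2
    linarith [hx.2]
  · rw [Set.disjoint_left]
    rintro x hx hx'
    rw [hVsub] at hx'
    rcases hx with hx | hx
    · linarith [hx.2, hx'.1]
    · linarith [hx.1, hx'.2]
  · rw [Set.disjoint_left]
    rintro x hx hx'
    rw [htile] at hx'
    rcases hx with hx | hx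
    · linarith [hx.2, hx'.1]
    · linarith [hx.1, hx'.2]
  · intro a
    show some 1 ≠ some 0
    simp
  · linarith
  · apply div_nonneg _ hβ0.le
    linarith
  · rw [show (r - 1 - (l - 1)) / β = r / β - l / β by rw [← sub_div]; ring_nf]
    ring

/-- the main theorem -/
theorem main (β : ℝ) (hβ2 : 2 < β) :
    ∀ᵐ x ∂(volume.restrict (Icc (0 : ℝ) (⌊β⌋₊ / (β - 1)))),
      Cardinal.mk {ε : ℕ → ℕ // IsExpansion β x ε ∧ Balanced β ε} = Cardinal.continuum := by
  have hβ0 : 0 < β := by linarith
  have hβ1 : 0 < β - 1 := by linarith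
  set m := ⌊β⌋₊ with hm
  have hm1 : (m : ℝ) ≤ β := Nat.floor_le hβ0.le
  have hm2 : β < m + 1 := Nat.lt_floor_add_one β
  set c : ℝ := m / (β - 1) with hc
  have hc1 : 1 < c := by
    rw [hc, lt_div_iff₀ hβ1]
    linarith
  have hce : β * c = c + m := by
    rw [hc]; field_simp; ring
  have hm3 : 1 ≤ m := by
    have : (1 : ℝ) < m + 1 := by linarith
    have h0 : (0 : ℝ) < m := by linarith
    exact_mod_cast h0
  have P : Par β c m := ⟨by linarith, hce, hc1.le⟩
  obtain ⟨S⟩ := exists_sys P hβ2 hc1 hm3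
  exact continuum_of_sys S P.hβ hm.symm P.hc0 hce

end

end Pool.Agent.V11111.BE
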