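import Pool.Agent.V11111.BE.Sys

open MeasureTheory Set Filter Topology ProbabilityTheory
open scoped ENNReal

namespace Pool.Agent.V11111.BE

noncomputable section

namespace Sys

variable {β c : ℝ} {m : ℕ} (S : Sys β c m)

instance instCA : Countable S.A := S.cA

instance instMA : MeasurableSpace S.A := ⊤

instance instDA : DiscreteMeasurableSpace S.A := ⟨fun _ => MeasurableSpace.measurableSet_top⟩

lemma X_meas : Measurable S.X := measurable_to_countable' S.X_meas_pre

lemma R_meas : Measurable S.R := by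
  have h1 : Measurable (fun p : S.A × (ℝ × ℝ) =>
      Prod.map (g1 β (S.w p.1)) (g2 (S.s p.1)) p.2) := by
    apply measurable_from_prod_countable_right
    intro a
    exact (measurable_g1 β (S.w a)).prodMap (measurable_g2 (S.s a))
  exact h1.comp (S.X_meas.prodMk measurable_id)

lemma pre_P (hβ : 0 < β) (hc0 : 0 < c) (hc : β * c = c + m) (a : S.A) :
    PP c (S.X ⁻¹' {a}) = pr β (S.w a) (S.s a) := by
  have := PP_prob hc0
  have h := S.key hβ hc0 hc a univ MeasurableSet.univ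
  rwa [preimage_univ, inter_univ, measure_univ, mul_one] at h

lemma lint (hβ : 0 < β) (hc0 : 0 < c) (hc : β * c = c + m) (h : S.A → ℝ≥0∞) :
    ∫⁻ ω, h (S.X ω) ∂(PP c) = ∑' a, pr β (S.w a) (S.s a) * h a := by
  have h1 : ∫⁻ ω, h (S.X ω) ∂(PP c) = ∫⁻ a, h a ∂(Measure.map S.X (PP c)) :=
    (lintegral_map (measurable_of_countable h) S.X_meas).symm
  rw [h1, lintegral_countable']
  apply tsum_congr
  intro a
  rw [Measure.map_apply S.X_meas (MeasurableSet.singleton _), S.pre_P hβ hc0 hc, mul_comm]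

/-- length of the word -/
def fl (a : S.A) : ℝ := ((S.w a).length : ℝ)

/-- digit count of the word -/
def fc (k : ℕ) (a : S.A) : ℝ := ((S.w a).count k : ℝ)

/-- splitting indicator -/
def fs (a : S.A) : ℝ := if S.s a = none then 0 else 1

lemma int_fl (hβ : 0 < β) (hc0 : 0 < c) (hc : β * c = c + m) :
    Integrable (fun ω => S.fl (S.X ω)) (PP c) := by
  refine ⟨((measurable_of_countable S.fl).comp S.X_meas).aestronglyMeasurable, ?_⟩
  have h1 : ∫⁻ ω, ‖S.fl (S.X ω)‖ₑ ∂(PP c)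
      = ∑' a, pr β (S.w a) (S.s a) * ((S.w a).length : ℝ≥0∞) := by
    rw [← S.lint hβ hc0 hc]
    apply lintegral_congr
    intro ω
    show ‖(((S.w (S.X ω)).length : ℕ) : ℝ)‖ₑ = _
    rw [Real.enorm_of_nonneg (Nat.cast_nonneg _), ENNReal.ofReal_natCast]
  show ∫⁻ ω, ‖S.fl (S.X ω)‖ₑ ∂(PP c) < ⊤
  rw [h1]
  exact lt_top_iff_ne_top.2 S.len

lemma int_fc (hβ : 0 < β) (hc0 : 0 < c) (hc : β * c = c + m) (k : ℕ) :
    Integrable (fun ω => S.fc k (S.X ω)) (PP c) := by
  refine (S.int_fl hβ hc0 hc).mono'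
    ((measurable_of_countable (S.fc k)).comp S.X_meas).aestronglyMeasurable ?_
  refine Filter.Eventually.of_forall fun ω => ?_
  show ‖(((S.w (S.X ω)).count k : ℕ) : ℝ)‖ ≤ (((S.w (S.X ω)).length : ℕ) : ℝ)
  rw [Real.norm_of_nonneg (Nat.cast_nonneg _)]
  exact_mod_cast List.count_le_length

lemma int_fs (hc0 : 0 < c) : Integrable (fun ω => S.fs (S.X ω)) (PP c) := by
  have := PP_prob hc0
  refine (integrable_const (1 : ℝ)).mono'
    ((measurable_of_countable S.fs).comp S.X_meas).aestronglyMeasurable ?_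
  refine Filter.Eventually.of_forall fun ω => ?_
  unfold fs
  split_ifs <;> simp

/-- mean length -/
def ell : ℝ := ∫ ω, S.fl (S.X ω) ∂(PP c)

/-- mean digit count -/
def nu (k : ℕ) : ℝ := ∫ ω, S.fc k (S.X ω) ∂(PP c)

/-- splitting probability -/
def sig : ℝ := ∫ ω, S.fs (S.X ω) ∂(PP c)

lemma ell_pos (hβ : 0 < β) (hc0 : 0 < c) (hc : β * c = c + m) : 0 < S.ell := by
  have := PP_prob hc0
  have h1 : ∫ _ω : ℝ × ℝ, (1 : ℝ) ∂(PP c) ≤ S.ell := by
    apply integral_mono (integrable_const _) (S.int_fl hβ hc0 hc)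
    intro ω
    show (1 : ℝ) ≤ (((S.w (S.X ω)).length : ℕ) : ℝ)
    exact_mod_cast List.length_pos_iff.2 (S.ne _)
  simp at h1
  linarith

lemma sig_pos (hβ : 0 < β) (hc0 : 0 < c) (hc : β * c = c + m) : 0 < S.sig := by
  have := PP_prob hc0
  obtain ⟨a, ha⟩ := S.split
  have h1 : ∫ ω, (S.X ⁻¹' {a}).indicator (fun _ => (1 : ℝ)) ω ∂(PP c) ≤ S.sig := by
    apply integral_mono ((integrable_const (1 : ℝ)).indicator (S.X_meas_pre a)) (S.int_fs hc0)
    intro ω
    by_cases h : ω ∈ S.X ⁻¹' {a}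
    · show (S.X ⁻¹' {a}).indicator (fun _ => (1 : ℝ)) ω ≤ S.fs (S.X ω)
      rw [indicator_of_mem h]
      have h2 : S.X ω = a := h
      unfold fs
      rw [h2, if_neg ha]
    · show (S.X ⁻¹' {a}).indicator (fun _ => (1 : ℝ)) ω ≤ S.fs (S.X ω)
      rw [indicator_of_notMem h]
      unfold fs
      split_ifs <;> norm_num
  rw [integral_indicator (S.X_meas_pre a)] at h1
  simp only [integral_const, MeasurableSet.univ, measureReal_restrict_apply, univ_inter,
    smul_eq_mul, mul_one] at h1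
  refine lt_of_lt_of_le ?_ h1
  rw [Measure.real, S.pre_P hβ hc0 hc, ENNReal.toReal_pos_iff]
  constructor
  · unfold pr
    apply ENNReal.mul_pos
    · rw [Ne, ENNReal.ofReal_eq_zero, not_le]
      positivity
    · rcases h : S.s a with _ | b
      · exact one_ne_zero
      · show ENNReal.ofReal (1 / 2) ≠ 0
        rw [Ne, ENNReal.ofReal_eq_zero, not_le]
        norm_num
  · unfold pr
    exact ENNReal.mul_lt_top ENNReal.ofReal_lt_top (lt_top_iff_ne_top.2 (qw_ne_top _))

lemma nu_symm (hβ : 0 < β) (hc0 : 0 < c) (hc : β * c = c + m) {k : ℕ} (hk : k ≤ m) :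
    S.nu (m - k) = S.nu k := by
  have h1 : ∀ j, S.nu j = (∑' a, pr β (S.w a) (S.s a) * ((S.w a).count j : ℝ≥0∞)).toReal := by
    intro j
    unfold nu
    have hm : AEStronglyMeasurable (fun ω => S.fc j (S.X ω)) (PP c) :=
      ((measurable_of_countable (S.fc j)).comp S.X_meas).aestronglyMeasurable
    have hn : 0 ≤ᵐ[PP c] (fun ω => S.fc j (S.X ω)) := by
      refine Filter.Eventually.of_forall fun ω => ?_
      show (0 : ℝ) ≤ (((S.w (S.X ω)).count j : ℕ) : ℝ)
      positivity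
    rw [integral_eq_lintegral_of_nonneg_ae hn hm, ← S.lint hβ hc0 hc]
    congr 1
    apply lintegral_congr
    intro ω
    show ENNReal.ofReal (((S.w (S.X ω)).count j : ℕ) : ℝ) = _
    rw [ENNReal.ofReal_natCast]
  rw [h1, h1]
  congr 1
  rw [← S.flip.tsum_eq (fun a => pr β (S.w a) (S.s a) * ((S.w a).count k : ℝ≥0∞))]
  apply tsum_congr
  intro a
  rw [S.wflip, S.sflip, mir_count (S.dig_le a) hk]
  unfold pr
  rw [mir_length]

/-- good points -/
structure GoodPt (ω : ℝ × ℝ) : Prop where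
  all : ∀ n : ℕ, S.R^[n] ω ∈ S.all
  len : Tendsto (fun n : ℕ => (∑ i ∈ Finset.range n, S.fl (S.X (S.R^[i] ω))) / n) atTop
    (𝓝 S.ell)
  cnt : ∀ k, Tendsto (fun n : ℕ => (∑ i ∈ Finset.range n, S.fc k (S.X (S.R^[i] ω))) / n) atTop
    (𝓝 (S.nu k))
  spl : Tendsto (fun n : ℕ => (∑ i ∈ Finset.range n, S.fs (S.X (S.R^[i] ω))) / n) atTop
    (𝓝 S.sig)

lemma ae_good (hβ : 0 < β) (hc0 : 0 < c) (hc : β * c = c + m) :
    ∀ᵐ ω ∂(PP c), S.GoodPt ω := by
  have := PP_prob hc0
  have hk := S.key hβ hc0 hc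
  have hmp := mpR S.X_meas S.R_meas hk
  have h1 : ∀ᵐ ω ∂(PP c), ∀ n : ℕ, S.R^[n] ω ∈ S.all := by
    rw [ae_all_iff]
    intro n
    have h2 : ∀ᵐ ω ∂(PP c), ω ∈ S.all := S.all_P hβ hc0 hc
    exact (hmp.iterate n).quasiMeasurePreserving.ae h2
  have h2 := strong S.X_meas S.R_meas hk S.fl (S.int_fl hβ hc0 hc)
  have h3 : ∀ᵐ ω ∂(PP c), ∀ k : ℕ, Tendsto (fun n : ℕ =>
      (∑ i ∈ Finset.range n, S.fc k (S.X (S.R^[i] ω))) / n) atTop (𝓝 (S.nu k)) := by
    rw [ae_all_iff]
    intro k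
    exact strong S.X_meas S.R_meas hk (S.fc k) (S.int_fc hβ hc0 hc k)
  have h4 := strong S.X_meas S.R_meas hk S.fs (S.int_fs hc0)
  filter_upwards [h1, h2, h3, h4] with ω a1 a2 a3 a4
  exact ⟨a1, a2, a3, a4⟩

/-- the sequence of words -/
def W (ω : ℝ × ℝ) (n : ℕ) : List ℕ := S.w (S.X (S.R^[n] ω))

lemma W_ne (ω : ℝ × ℝ) (n : ℕ) : S.W ω n ≠ [] := S.ne _

lemma R_succ (ω : ℝ × ℝ) (n : ℕ) : S.R^[n + 1] ω
    = Prod.map (g1 β (S.w (S.X (S.R^[n] ω)))) (g2 (S.s (S.X (S.R^[n] ω)))) (S.R^[n] ω) := by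
  rw [Function.iterate_succ_apply']
  rfl

lemma value (hβ : 0 < β) (ω : ℝ × ℝ) (n : ℕ) :
    fw β (pre (S.W ω) n) (S.R^[n] ω).1 = ω.1 := by
  induction n with
  | zero => rfl
  | succ n ih =>
    show fw β (pre (S.W ω) n ++ S.W ω n) _ = _
    rw [fw_append, S.R_succ]
    have h1 : fw β (S.W ω n) (Prod.map (g1 β (S.w (S.X (S.R^[n] ω))))
        (g2 (S.s (S.X (S.R^[n] ω)))) (S.R^[n] ω)).1 = (S.R^[n] ω).1 :=
      fw_g1 hβ _ _
    rw [h1, ih]

lemma good_mem (hβ : 0 < β) (hc : β * c = c + m) {ω : ℝ × ℝ} (h : S.GoodPt ω) (n : ℕ) :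
    (S.R^[n] ω).1 ∈ Icc 0 c := by
  have h1 := S.mem_rect (h.all n)
  exact tile_sub hβ hc (S.dig_le _) h1.1

lemma good_mem2 {ω : ℝ × ℝ} (h : S.GoodPt ω) (n : ℕ) :
    (S.R^[n] ω).2 ∈ Ico 0 1 := by
  have h1 := S.mem_rect (h.all n)
  exact h1.2.2

/-- equal digit sequences with the same first coordinate come from equal second coordinates -/
lemma inj (hβ : 0 < β) (hc0 : 0 < c) (hc : β * c = c + m) {x y y' : ℝ}
    (h : S.GoodPt (x, y)) (h' : S.GoodPt (x, y'))
    (hd : dig (S.W (x, y)) = dig (S.W (x, y'))) : y = y' := by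
  -- induction claim
  have claim : ∀ n : ℕ, pre (S.W (x, y)) n = pre (S.W (x, y')) n ∧
      (S.R^[n] (x, y)).1 = (S.R^[n] (x, y')).1 ∧
      |(S.R^[n] (x, y)).2 - (S.R^[n] (x, y')).2|
        = 2 ^ (∑ i ∈ Finset.range n, S.fs (S.X (S.R^[i] (x, y)))) * |y - y'| := by
    intro n
    induction n with
    | zero => simp [pre]
    | succ n ih =>
      obtain ⟨h1, h2, h3⟩ := ih
      have r1 := S.mem_rect (h.all n)
      have r2 := S.mem_rect (h'.all n)
      have hX : S.X (S.R^[n] (x, y)) = S.X (S.R^[n] (x, y')) := by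
        by_contra hne
        rcases S.dis _ _ hne with h4 | ⟨h4, -⟩
        · have t1 := r1.1
          have t2 := r2.1
          rw [← h2] at t2
          exact Set.disjoint_left.1 h4 t1 t2
        · apply h4
          have hw : S.w (S.X (S.R^[n] (x, y))) = S.W (x, y) n := rfl
          have hw' : S.w (S.X (S.R^[n] (x, y'))) = S.W (x, y') n := rfl
          rw [hw, hw']
          have hh : ∀ ω : ℝ × ℝ, (S.W ω n).head?
              = some (dig (S.W ω) (pre (S.W ω) n).length) := by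
            intro ω
            have hlt : (pre (S.W ω) n).length < (pre (S.W ω) (n + 1)).length := by
              rw [pre_len_succ]
              have := List.length_pos_iff.2 (S.W_ne ω n)
              omega
            rw [dig_eq (S.W_ne ω) hlt]
            show _ = some ((pre (S.W ω) n ++ S.W ω n).getD _ 0)
            rw [List.getD_append_right _ _ _ _ le_rfl, Nat.sub_self]
            rcases hh2 : S.W ω n with _ | ⟨k, w⟩
            · exact absurd hh2 (S.W_ne ω n)
            · simp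
          rw [hh, hh, hd, h1]
      have hWn : S.W (x, y) n = S.W (x, y') n := congrArg S.w hX
      refine ⟨?_, ?_, ?_⟩
      · show pre (S.W (x, y)) n ++ S.W (x, y) n = pre (S.W (x, y')) n ++ S.W (x, y') n
        rw [h1, hWn]
      · rw [S.R_succ, S.R_succ, ← hX]
        show g1 β _ (S.R^[n] (x, y)).1 = g1 β _ (S.R^[n] (x, y')).1
        rw [h2]
      · rw [S.R_succ, S.R_succ, ← hX, Finset.sum_range_succ, Real.rpow_add (by norm_num)]
        show |g2 (S.s (S.X (S.R^[n] (x, y)))) (S.R^[n] (x, y)).2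
          - g2 (S.s (S.X (S.R^[n] (x, y)))) (S.R^[n] (x, y')).2| = _
        have h5 : ∀ (s : Option Bool) (u v : ℝ), |g2 s u - g2 s v|
            = 2 ^ (if s = none then (0 : ℝ) else 1) * |u - v| := by
          intro s u v
          rcases s with _ | _ | _
          · simp [g2]
          · rw [if_neg (by simp), Real.rpow_one]
            show |2 * u - 2 * v| = _
            rw [← mul_sub, abs_mul, abs_of_pos (by norm_num : (0 : ℝ) < 2)]
          · rw [if_neg (by simp), Real.rpow_one]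
            show |2 * u - 1 - (2 * v - 1)| = _
            rw [show 2 * u - 1 - (2 * v - 1) = 2 * (u - v) by ring, abs_mul,
              abs_of_pos (by norm_num : (0 : ℝ) < 2)]
        rw [h5, h3]
        show _ = _ * 2 ^ (if S.s (S.X (S.R^[n] (x, y))) = none then (0 : ℝ) else 1) * _
        ring
  by_contra hne
  have hpos : 0 < |y - y'| := abs_pos.2 (sub_ne_zero.2 hne)
  -- the exponent tends to infinity
  have hσ := S.sig_pos hβ hc0 hc
  have hsum : Tendsto (fun n : ℕ => ∑ i ∈ Finset.range n, S.fs (S.X (S.R^[i] (x, y)))) atTop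
      atTop := by
    have h1 : Tendsto (fun n : ℕ => (∑ i ∈ Finset.range n, S.fs (S.X (S.R^[i] (x, y)))) / n
        * (n : ℝ)) atTop atTop := h.spl.pos_mul_atTop hσ tendsto_natCast_atTop_atTop
    refine h1.congr' ?_
    filter_upwards [Filter.eventually_gt_atTop 0] with n hn
    have : (n : ℝ) ≠ 0 := by exact_mod_cast hn.ne'
    field_simp
  have hpow : Tendsto (fun n : ℕ => (2 : ℝ) ^ (∑ i ∈ Finset.range n,
      S.fs (S.X (S.R^[i] (x, y)))) * |y - y'|) atTop atTop := by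
    apply Tendsto.atTop_mul_const hpos
    exact (tendsto_rpow_atTop_of_base_gt_one 2 (by norm_num)).comp hsum
  obtain ⟨n, hn⟩ := (hpow.eventually (Filter.eventually_gt_atTop 1)).exists
  have h1 := (claim n).2.2
  have h2 := S.good_mem2 h n
  have h3 := S.good_mem2 h' n
  have h4 : |(S.R^[n] (x, y)).2 - (S.R^[n] (x, y')).2| < 1 := by
    rw [abs_lt]
    constructor <;> linarith [h2.1, h2.2, h3.1, h3.2]
  linarith

end Sys

end

end Pool.Agent.V11111.BE
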