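import Mathlib

open MeasureTheory Set Filter Topology ProbabilityTheory
open scoped ENNReal

namespace Pool.Agent.V11111.BE

variable {Ω A : Type} [MeasurableSpace Ω] {P : Measure Ω} [IsProbabilityMeasure P]
  [Countable A] [MeasurableSpace A] [DiscreteMeasurableSpace A]
  {X : Ω → A} {R : Ω → Ω} {p : A → ℝ≥0∞}

lemma key_set (hX : Measurable X) (hR : Measurable R)
    (hk : ∀ a, ∀ B, MeasurableSet B → P (X ⁻¹' {a} ∩ R ⁻¹' B) = p a * P B)
    (S : Set A) {B : Set Ω} (hB : MeasurableSet B) :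
    P (X ⁻¹' S ∩ R ⁻¹' B) = P (X ⁻¹' S) * P B := by
  have h1 : ∀ B, MeasurableSet B → P (X ⁻¹' S ∩ R ⁻¹' B) = ∑' a : S, p a * P B := by
    intro B hB
    have h2 : X ⁻¹' S ∩ R ⁻¹' B = ⋃ a : S, (X ⁻¹' {(a : A)} ∩ R ⁻¹' B) := by
      ext ω
      simp only [mem_inter_iff, mem_preimage, mem_iUnion, mem_singleton_iff]
      constructor
      · rintro ⟨h3, h4⟩
        exact ⟨⟨X ω, h3⟩, rfl, h4⟩
      · rintro ⟨a, h3, h4⟩
        exact ⟨h3 ▸ a.2, h4⟩
    rw [h2, measure_iUnion]
    · exact tsum_congr fun a => hk a B hB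
    · intro a b hab
      refine Set.disjoint_left.2 fun ω h3 h4 => hab ?_
      have h5 : X ω = a := h3.1
      have h6 : X ω = b := h4.1
      exact Subtype.ext (h5.symm.trans h6)
    · intro a
      exact (hX (MeasurableSet.singleton _)).inter (hR hB)
  have h2 := h1 univ MeasurableSet.univ
  rw [preimage_univ, inter_univ] at h2
  rw [h1 B hB, h2, measure_univ]
  simp only [mul_one]
  rw [ENNReal.tsum_mul_right]

lemma mpR (hX : Measurable X) (hR : Measurable R)
    (hk : ∀ a, ∀ B, MeasurableSet B → P (X ⁻¹' {a} ∩ R ⁻¹' B) = p a * P B) :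
    MeasurePreserving R P P := by
  refine ⟨hR, ?_⟩
  ext B hB
  rw [Measure.map_apply hR hB]
  have h := key_set hX hR hk univ hB
  rwa [preimage_univ, univ_inter, measure_univ, one_mul] at h

lemma strong (hX : Measurable X) (hR : Measurable R)
    (hk : ∀ a, ∀ B, MeasurableSet B → P (X ⁻¹' {a} ∩ R ⁻¹' B) = p a * P B)
    (g : A → ℝ) (hg : Integrable (fun ω => g (X ω)) P) :
    ∀ᵐ ω ∂P, Tendsto (fun n : ℕ => (∑ i ∈ Finset.range n, g (X (R^[i] ω))) / n) atTop
      (𝓝 (∫ ω, g (X ω) ∂P)) := by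
  have hmp := mpR hX hR hk
  have hgX : Measurable fun ω => g (X ω) := (measurable_of_countable g).comp hX
  have hYm : ∀ i : ℕ, Measurable fun ω => g (X (R^[i] ω)) := fun i =>
    hgX.comp (hmp.iterate i).measurable
  refine strong_law_ae_real (fun i ω => g (X (R^[i] ω))) hg ?_ ?_
  · -- pairwise independence
    have hlt : ∀ i j : ℕ, i < j → IndepFun (fun ω => g (X (R^[i] ω)))
        (fun ω => g (X (R^[j] ω))) P := by
      intro i j hij
      rw [indepFun_iff_measure_inter_preimage_eq_mul]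
      intro s t hs ht
      obtain ⟨k, rfl⟩ : ∃ k, j = k + 1 + i := ⟨j - i - 1, by omega⟩
      set S : Set A := g ⁻¹' s with hS
      set B : Set Ω := (fun ω => g (X (R^[k] ω))) ⁻¹' t with hB
      have hBm : MeasurableSet B := hYm k ht
      have e1 : (fun ω => g (X (R^[i] ω))) ⁻¹' s = R^[i] ⁻¹' (X ⁻¹' S) := rfl
      have e2 : (fun ω => g (X (R^[k + 1 + i] ω))) ⁻¹' t = R^[i] ⁻¹' (R ⁻¹' B) := by
        ext ω
        simp only [mem_preimage, hB, Function.iterate_add_apply, Function.iterate_one]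
      rw [e1, e2, ← preimage_inter, (hmp.iterate i).measure_preimage
        ((hX (MeasurableSet.of_discrete)).inter (hR hBm)).nullMeasurableSet,
        (hmp.iterate i).measure_preimage (hX (MeasurableSet.of_discrete)).nullMeasurableSet,
        (hmp.iterate i).measure_preimage (hR hBm).nullMeasurableSet,
        hmp.measure_preimage hBm.nullMeasurableSet]
      exact key_set hX hR hk S hBm
    intro i j hij
    rcases lt_or_gt_of_ne hij with h | h
    · exact hlt i j h
    · exact (hlt j i h).symm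
  · intro i
    refine ⟨(hYm i).aemeasurable, (hYm 0).aemeasurable, ?_⟩
    have e : (fun ω => g (X (R^[i] ω))) = (fun ω => g (X ω)) ∘ R^[i] := rfl
    rw [e, ← Measure.map_map hgX (hmp.iterate i).measurable, (hmp.iterate i).map_eq]
    rfl

end Pool.Agent.V11111.BE
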