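import Mathlib

open Set Filter Topology

namespace Pool.Agent.V11111.BE

noncomputable section

/-- the contraction of a word -/
def fw (β : ℝ) : List ℕ → ℝ → ℝ
  | [], x => x
  | k :: w, x => (k + fw β w x) / β

@[simp] lemma fw_nil (β x : ℝ) : fw β [] x = x := rfl

@[simp] lemma fw_cons (β x : ℝ) (k : ℕ) (w : List ℕ) :
    fw β (k :: w) x = (k + fw β w x) / β := rfl

lemma fw_append (β x : ℝ) (u v : List ℕ) : fw β (u ++ v) x = fw β u (fw β v x) := by
  induction u with
  | nil => rfl
  | cons k u ih => simp [ih]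

lemma fw_eq {β : ℝ} (hβ : 0 < β) (w : List ℕ) (x : ℝ) :
    fw β w x = fw β w 0 + x / β ^ w.length := by
  induction w with
  | nil => simp
  | cons k w ih =>
    rw [fw_cons, fw_cons, ih, List.length_cons, pow_succ]
    field_simp
    ring

/-- mirrored word -/
def mir (m : ℕ) (w : List ℕ) : List ℕ := w.map fun k => m - k

@[simp] lemma mir_length (m : ℕ) (w : List ℕ) : (mir m w).length = w.length := by simp [mir]

lemma mir_digits (m : ℕ) (w : List ℕ) : ∀ k ∈ mir m w, k ≤ m := by
  intro k hk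
  rw [mir, List.mem_map] at hk
  obtain ⟨j, -, rfl⟩ := hk
  exact Nat.sub_le _ _

lemma mir_mir {m : ℕ} {w : List ℕ} (hw : ∀ k ∈ w, k ≤ m) : mir m (mir m w) = w := by
  rw [mir, mir, List.map_map]
  conv_rhs => rw [← List.map_id w]
  apply List.map_congr_left
  intro k hk
  have := hw k hk
  simp only [Function.comp, id]
  omega

lemma mir_count {m : ℕ} {w : List ℕ} (hw : ∀ k ∈ w, k ≤ m) {k : ℕ} (hk : k ≤ m) :
    (mir m w).count k = w.count (m - k) := by
  induction w with
  | nil => rfl
  | cons j w ih =>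
    have h1 : j ≤ m := hw j List.mem_cons_self
    have h2 := ih fun i hi => hw i (List.mem_cons_of_mem _ hi)
    have h3 : mir m (j :: w) = (m - j) :: mir m w := rfl
    rw [h3, List.count_cons, List.count_cons, h2]
    congr 1
    by_cases h : j = m - k
    · have : m - j = k := by omega
      simp [h, this]
      omega
    · have : m - j ≠ k := by omega
      simp [h, this]

lemma fw_mir {β c : ℝ} {m : ℕ} (hβ : 0 < β) (hc : β * c = c + m) {w : List ℕ}
    (hw : ∀ k ∈ w, k ≤ m) (x : ℝ) : fw β (mir m w) (c - x) = c - fw β w x := by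
  induction w with
  | nil => rfl
  | cons j w ih =>
    have h1 : j ≤ m := hw j List.mem_cons_self
    have h2 := ih fun i hi => hw i (List.mem_cons_of_mem _ hi)
    have h3 : mir m (j :: w) = (m - j) :: mir m w := rfl
    rw [h3, fw_cons, fw_cons, h2, Nat.cast_sub h1]
    field_simp
    linarith

lemma fw_mem {β c : ℝ} {m : ℕ} (hβ : 0 < β) (hc : β * c = c + m) {w : List ℕ}
    (hw : ∀ k ∈ w, k ≤ m) {x : ℝ} (hx : x ∈ Icc 0 c) : fw β w x ∈ Icc 0 c := by
  induction w with
  | nil => exact hx
  | cons j w ih =>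
    have h1 : (j : ℝ) ≤ m := by exact_mod_cast hw j List.mem_cons_self
    have h2 := ih fun i hi => hw i (List.mem_cons_of_mem _ hi)
    rw [fw_cons]
    have h0 : (0 : ℝ) ≤ j := Nat.cast_nonneg j
    refine ⟨div_nonneg (by linarith [h2.1]) hβ.le, ?_⟩
    rw [div_le_iff₀ hβ]
    linarith [h2.2]

/-- the word of given length through a given point -/
lemma exists_word {β c : ℝ} {m : ℕ} (hβ : 1 < β) (hc : β * c = c + m) (hc1 : 1 ≤ c)
    (n : ℕ) : ∀ x ∈ Icc 0 c, ∃ w : List ℕ, w.length = n ∧ (∀ k ∈ w, k ≤ m) ∧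
      ∃ z ∈ Icc 0 c, fw β w z = x := by
  have hβ0 : 0 < β := by linarith
  induction n with
  | zero =>
    intro x hx
    exact ⟨[], rfl, by simp, x, hx, rfl⟩
  | succ n ih =>
    intro x hx
    have h1 : ∃ k : ℕ, k ≤ m ∧ β * x - k ∈ Icc 0 c := by
      have hx0 : 0 ≤ β * x := mul_nonneg hβ0.le hx.1
      by_cases h : ⌊β * x⌋₊ ≤ m
      · refine ⟨⌊β * x⌋₊, h, sub_nonneg.2 (Nat.floor_le hx0), ?_⟩
        have := Nat.lt_floor_add_one (β * x)
        linarith
      · refine ⟨m, le_rfl, ?_, ?_⟩
        · have h2 : (m : ℝ) ≤ ⌊β * x⌋₊ := by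
            push Not at h
            exact_mod_cast h.le
          have := Nat.floor_le hx0
          linarith
        · have : β * x ≤ β * c := mul_le_mul_of_nonneg_left hx.2 hβ0.le
          linarith
    obtain ⟨k, hk, hk2⟩ := h1
    obtain ⟨w, hw, hwd, z, hz, hzx⟩ := ih _ hk2
    refine ⟨k :: w, by simp [hw], ?_, z, hz, ?_⟩
    · intro j hj
      rcases List.mem_cons.1 hj with rfl | h
      · exact hk
      · exact hwd j h
    · rw [fw_cons, hzx]
      field_simp
      ring

/-! ### concatenation -/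

/-- the first `n` words concatenated -/
def pre (W : ℕ → List ℕ) : ℕ → List ℕ
  | 0 => []
  | n + 1 => pre W n ++ W n

/-- the digit sequence -/
def dig (W : ℕ → List ℕ) (i : ℕ) : ℕ := (pre W (i + 1)).getD i 0

lemma pre_len_succ (W : ℕ → List ℕ) (n : ℕ) :
    (pre W (n + 1)).length = (pre W n).length + (W n).length := by
  simp [pre]

lemma pre_len_ge {W : ℕ → List ℕ} (hW : ∀ n, W n ≠ []) (n : ℕ) : n ≤ (pre W n).length := by
  induction n with
  | zero => simp
  | succ n ih =>
    rw [pre_len_succ]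
    have := List.length_pos_iff.2 (hW n)
    omega

lemma pre_getD {W : ℕ → List ℕ} (n k : ℕ) {i : ℕ} (hi : i < (pre W n).length) :
    (pre W (n + k)).getD i 0 = (pre W n).getD i 0 := by
  induction k with
  | zero => rfl
  | succ k ih =>
    have h1 : i < (pre W (n + k)).length := by
      clear ih
      induction k with
      | zero => exact hi
      | succ k ih2 =>
        rw [show n + (k + 1) = (n + k) + 1 from rfl, pre_len_succ]
        omega
    rw [← ih, show n + (k + 1) = (n + k) + 1 from rfl]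
    show (pre W (n + k) ++ W (n + k)).getD i 0 = _
    rw [List.getD_append _ _ _ _ h1]

lemma dig_eq {W : ℕ → List ℕ} (hW : ∀ n, W n ≠ []) {n i : ℕ} (hi : i < (pre W n).length) :
    dig W i = (pre W n).getD i 0 := by
  unfold dig
  have h1 : i < (pre W (i + 1)).length := lt_of_lt_of_le (Nat.lt_succ_self i) (pre_len_ge hW _)
  rcases le_total n (i + 1) with h | h
  · obtain ⟨k, hk⟩ := Nat.exists_eq_add_of_le h
    rw [hk, pre_getD n k hi]
  · obtain ⟨k, hk⟩ := Nat.exists_eq_add_of_le h
    rw [hk] at hi ⊢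
    rw [pre_getD (i + 1) k h1]

/-- the concatenation of the first words -/
lemma map_dig {W : ℕ → List ℕ} (hW : ∀ n, W n ≠ []) (n : ℕ) :
    (List.range (pre W n).length).map (dig W) = pre W n := by
  apply List.ext_getElem
  · simp
  · intro i h1 h2
    rw [List.getElem_map, List.getElem_range, dig_eq hW h2, List.getD_eq_getElem _ _ h2]

lemma dig_le {W : ℕ → List ℕ} (hW : ∀ n, W n ≠ []) {m : ℕ} (hm : ∀ n, ∀ k ∈ W n, k ≤ m)
    (i : ℕ) : dig W i ≤ m := by
  have h1 : i < (pre W (i + 1)).length := lt_of_lt_of_le (Nat.lt_succ_self i) (pre_len_ge hW _)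
  have h2 : ∀ n, ∀ k ∈ pre W n, k ≤ m := by
    intro n
    induction n with
    | zero => simp [pre]
    | succ n ih =>
      intro k hk
      rcases List.mem_append.1 hk with h | h
      · exact ih k h
      · exact hm n k h
  unfold dig
  rw [List.getD_eq_getElem _ _ h1]
  exact h2 _ _ (List.getElem_mem h1)

/-- number of occurrences of a digit among the first `n` -/
def cnt (ε : ℕ → ℕ) (k n : ℕ) : ℕ := ((Finset.range n).filter fun i => ε i = k).card

lemma cnt_succ (ε : ℕ → ℕ) (k n : ℕ) :
    cnt ε k (n + 1) = cnt ε k n + if ε n = k then 1 else 0 := by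
  unfold cnt
  rw [Finset.range_add_one, Finset.filter_insert]
  by_cases h : ε n = k
  · rw [if_pos h, if_pos h, Finset.card_insert_of_notMem]
    simp
  · rw [if_neg h, if_neg h, add_zero]

lemma cnt_mono (ε : ℕ → ℕ) (k : ℕ) : Monotone (cnt ε k) := by
  apply monotone_nat_of_le_succ
  intro n
  rw [cnt_succ]
  omega

lemma cnt_eq_count (ε : ℕ → ℕ) (k n : ℕ) : cnt ε k n = ((List.range n).map ε).count k := by
  induction n with
  | zero => rfl
  | succ n ih =>
    rw [cnt_succ, List.range_succ, List.map_append, List.count_append, ih]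
    congr 1
    by_cases h : ε n = k
    · simp [h]
    · simp [h]

lemma cnt_pre {W : ℕ → List ℕ} (hW : ∀ n, W n ≠ []) (k n : ℕ) :
    cnt (dig W) k (pre W n).length = ∑ i ∈ Finset.range n, (W i).count k := by
  rw [cnt_eq_count, map_dig hW]
  induction n with
  | zero => rfl
  | succ n ih =>
    show (pre W n ++ W n).count k = _
    rw [List.count_append, ih, Finset.sum_range_succ]

lemma pre_len_sum (W : ℕ → List ℕ) (n : ℕ) :
    (pre W n).length = ∑ i ∈ Finset.range n, (W i).length := by
  induction n with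
  | zero => rfl
  | succ n ih => rw [pre_len_succ, ih, Finset.sum_range_succ]

/-- frequencies from block averages -/
lemma freq_of_blocks {W : ℕ → List ℕ} (hW : ∀ n, W n ≠ []) (k : ℕ) {ℓ ν : ℝ} (hℓ : 0 < ℓ)
    (h1 : Tendsto (fun n : ℕ => (∑ i ∈ Finset.range n, ((W i).length : ℝ)) / n) atTop (𝓝 ℓ))
    (h2 : Tendsto (fun n : ℕ => (∑ i ∈ Finset.range n, ((W i).count k : ℝ)) / n) atTop (𝓝 ν)) :
    Tendsto (fun n : ℕ => (cnt (dig W) k n : ℝ) / n) atTop (𝓝 (ν / ℓ)) := by
  classical
  set Ln : ℕ → ℕ := fun n => (pre W n).length with hLn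
  have hL0 : Ln 0 = 0 := rfl
  have hLge : ∀ n, n ≤ Ln n := pre_len_ge hW
  have hLmono : StrictMono Ln := by
    apply strictMono_nat_of_lt_succ
    intro n
    show (pre W n).length < (pre W (n + 1)).length
    rw [pre_len_succ]
    have := List.length_pos_iff.2 (hW n)
    omega
  -- block index of a time
  let N : ℕ → ℕ := fun t => Nat.findGreatest (fun n => Ln n ≤ t) t
  have hN1 : ∀ t, Ln (N t) ≤ t := fun t =>
    Nat.findGreatest_spec (P := fun n => Ln n ≤ t) (Nat.zero_le t) (by rw [hL0]; exact Nat.zero_le t)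
  have hN2 : ∀ t, t < Ln (N t + 1) := by
    intro t
    by_contra h
    push Not at h
    have h3 : N t + 1 ≤ t := (hLge _).trans h
    have h6 := Nat.le_findGreatest (P := fun n => Ln n ≤ t) h3 h
    have h7 : N t = Nat.findGreatest (fun n => Ln n ≤ t) t := rfl
    omega
  have hNtop : Tendsto N atTop atTop := by
    rw [tendsto_atTop]
    intro b
    filter_upwards [Filter.eventually_ge_atTop (Ln b)] with t ht
    by_contra h
    push Not at h
    have h3 : Ln (N t + 1) ≤ Ln b := hLmono.monotone h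
    have := hN2 t
    omega
  -- real sequences
  have hLr : ∀ n, ((Ln n : ℕ) : ℝ) = ∑ i ∈ Finset.range n, ((W i).length : ℝ) := by
    intro n
    rw [hLn]
    show (((pre W n).length : ℕ) : ℝ) = _
    rw [pre_len_sum]
    push_cast
    rfl
  have hCr : ∀ n, ((cnt (dig W) k (Ln n) : ℕ) : ℝ) = ∑ i ∈ Finset.range n, ((W i).count k : ℝ) := by
    intro n
    rw [hLn]
    show ((cnt (dig W) k (pre W n).length : ℕ) : ℝ) = _
    rw [cnt_pre hW]
    push_cast
    rfl
  have a1 : Tendsto (fun n : ℕ => (Ln n : ℝ) / n) atTop (𝓝 ℓ) := by simpa only [hLr] using h1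
  have a2 : Tendsto (fun n : ℕ => (cnt (dig W) k (Ln n) : ℝ) / n) atTop (𝓝 ν) := by
    simpa only [hCr] using h2
  have hone : Tendsto (fun n : ℕ => ((n + 1 : ℕ) : ℝ) / n) atTop (𝓝 1) := by
    have h3 : Tendsto (fun n : ℕ => 1 + (1 : ℝ) / n) atTop (𝓝 (1 + 0)) :=
      tendsto_const_nhds.add tendsto_one_div_atTop_nhds_zero_nat
    rw [add_zero] at h3
    refine h3.congr' ?_
    filter_upwards [Filter.eventually_gt_atTop 0] with n hn
    have : (0 : ℝ) < n := by exact_mod_cast hn
    push_cast
    field_simp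
  have a1' : Tendsto (fun n : ℕ => (Ln (n + 1) : ℝ) / n) atTop (𝓝 ℓ) := by
    have h3 := (a1.comp (tendsto_add_atTop_nat 1)).mul hone
    rw [mul_one] at h3
    refine h3.congr' ?_
    filter_upwards [Filter.eventually_gt_atTop 0] with n hn
    have h4 : (0 : ℝ) < n := by exact_mod_cast hn
    have h5 : (0 : ℝ) < ((n + 1 : ℕ) : ℝ) := by positivity
    simp only [Function.comp]
    field_simp
  have a2' : Tendsto (fun n : ℕ => (cnt (dig W) k (Ln (n + 1)) : ℝ) / n) atTop (𝓝 ν) := by
    have h3 := (a2.comp (tendsto_add_atTop_nat 1)).mul hone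
    rw [mul_one] at h3
    refine h3.congr' ?_
    filter_upwards [Filter.eventually_gt_atTop 0] with n hn
    have h4 : (0 : ℝ) < n := by exact_mod_cast hn
    have h5 : (0 : ℝ) < ((n + 1 : ℕ) : ℝ) := by positivity
    simp only [Function.comp]
    field_simp
  have low : Tendsto (fun n : ℕ => (cnt (dig W) k (Ln n) : ℝ) / (Ln (n + 1) : ℝ)) atTop
      (𝓝 (ν / ℓ)) := by
    have h3 := a2.div a1' hℓ.ne'
    refine h3.congr' ?_
    filter_upwards [Filter.eventually_gt_atTop 0] with n hn
    have h4 : (0 : ℝ) < n := by exact_mod_cast hn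
    simp only [Pi.div_apply]
    rw [div_div_div_cancel_right₀ h4.ne']
  have upp : Tendsto (fun n : ℕ => (cnt (dig W) k (Ln (n + 1)) : ℝ) / (Ln n : ℝ)) atTop
      (𝓝 (ν / ℓ)) := by
    have h3 := a2'.div a1 hℓ.ne'
    refine h3.congr' ?_
    filter_upwards [Filter.eventually_gt_atTop 0] with n hn
    have h4 : (0 : ℝ) < n := by exact_mod_cast hn
    simp only [Pi.div_apply]
    rw [div_div_div_cancel_right₀ h4.ne']
  refine tendsto_of_tendsto_of_tendsto_of_le_of_le' (low.comp hNtop) (upp.comp hNtop) ?_ ?_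
  · filter_upwards [Filter.eventually_gt_atTop 0] with t ht
    simp only [Function.comp]
    have h4 : (0 : ℝ) < t := by exact_mod_cast ht
    have h5 : (cnt (dig W) k (Ln (N t)) : ℝ) ≤ cnt (dig W) k t := by
      exact_mod_cast cnt_mono _ _ (hN1 t)
    have h6 : (t : ℝ) ≤ Ln (N t + 1) := by exact_mod_cast (hN2 t).le
    exact div_le_div₀ (by positivity) h5 h4 h6
  · filter_upwards [Filter.eventually_gt_atTop 0, hNtop.eventually (Filter.eventually_gt_atTop 0)]
      with t ht hNt
    simp only [Function.comp]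
    have h5 : (cnt (dig W) k t : ℝ) ≤ cnt (dig W) k (Ln (N t + 1)) := by
      exact_mod_cast cnt_mono _ _ (hN2 t).le
    have h6 : (Ln (N t) : ℝ) ≤ t := by exact_mod_cast hN1 t
    have h7 : (0 : ℝ) < Ln (N t) := by
      have := hLge (N t)
      exact_mod_cast lt_of_lt_of_le hNt this
    exact div_le_div₀ (by positivity) h5 h7 h6

/-! ### the value of the expansion -/

lemma fw_zero_eq_sum {β : ℝ} (hβ : 0 < β) (w : List ℕ) :
    fw β w 0 = ∑ i ∈ Finset.range w.length, (w.getD i 0 : ℝ) / β ^ (i + 1) := by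
  induction w with
  | nil => simp
  | cons k w ih =>
    rw [fw_cons, ih, List.length_cons, Finset.sum_range_succ', add_div, Finset.sum_div, add_comm]
    congr 1
    · apply Finset.sum_congr rfl
      intro i _
      rw [List.getD_cons_succ, div_div, ← pow_succ]
    · simp

lemma hasSum_of_blocks {β c : ℝ} {m : ℕ} (hβ : 1 < β) {W : ℕ → List ℕ} (hW : ∀ n, W n ≠ [])
    (hm : ∀ n, ∀ k ∈ W n, k ≤ m) {x : ℝ} {xs : ℕ → ℝ} (hxs : ∀ n, xs n ∈ Icc 0 c)
    (hx : ∀ n, fw β (pre W n) (xs n) = x) :
    HasSum (fun i => (dig W i : ℝ) / β ^ (i + 1)) x := by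
  have hβ0 : 0 < β := by linarith
  have hsum : Summable (fun i => (dig W i : ℝ) / β ^ (i + 1)) := by
    have h1 : Summable (fun i : ℕ => (m : ℝ) * (β⁻¹) ^ (i + 1)) := by
      apply Summable.mul_left
      exact (summable_nat_add_iff 1).2
        (summable_geometric_of_lt_one (by positivity) (inv_lt_one_of_one_lt₀ hβ))
    refine Summable.of_nonneg_of_le (fun i => by positivity) (fun i => ?_) h1
    rw [inv_pow, ← div_eq_mul_inv]
    apply div_le_div_of_nonneg_right _ (by positivity)
    exact_mod_cast dig_le hW hm i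
  have hL : Tendsto (fun n => (pre W n).length) atTop atTop :=
    tendsto_atTop_mono (pre_len_ge hW) tendsto_id
  have h1 := hsum.hasSum.tendsto_sum_nat.comp hL
  have h2 : ∀ n, ∑ i ∈ Finset.range (pre W n).length, (dig W i : ℝ) / β ^ (i + 1)
      = x - xs n / β ^ (pre W n).length := by
    intro n
    have h3 : ∑ i ∈ Finset.range (pre W n).length, (dig W i : ℝ) / β ^ (i + 1)
        = fw β (pre W n) 0 := by
      rw [fw_zero_eq_sum hβ0]
      apply Finset.sum_congr rfl
      intro i hi
      rw [dig_eq hW (Finset.mem_range.1 hi)]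
    rw [h3, ← hx n, fw_eq hβ0 (pre W n) (xs n)]
    ring
  have h3 : Tendsto (fun n => x - xs n / β ^ (pre W n).length) atTop (𝓝 (x - 0)) := by
    apply tendsto_const_nhds.sub
    have h4 : Tendsto (fun n => c / β ^ (pre W n).length) atTop (𝓝 0) := by
      have h5 : Tendsto (fun k : ℕ => c / β ^ k) atTop (𝓝 0) :=
        tendsto_const_nhds.div_atTop (tendsto_pow_atTop_atTop_of_one_lt hβ)
      exact h5.comp hL
    refine squeeze_zero (fun n => div_nonneg (hxs n).1 (by positivity)) (fun n => ?_) h4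
    exact div_le_div_of_nonneg_right (hxs n).2 (by positivity)
  rw [sub_zero] at h3
  have h4 : ∑' i, (dig W i : ℝ) / β ^ (i + 1) = x := by
    refine tendsto_nhds_unique h1 ?_
    refine h3.congr fun n => ?_
    rw [Function.comp, h2]
  rw [← h4]
  exact hsum.hasSum

end

end Pool.Agent.V11111.BE
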