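import Pool.Agent.V11111.BE.IID
import Pool.Agent.V11111.BE.Words

open MeasureTheory Set Filter Topology ProbabilityTheory
open scoped ENNReal

namespace Pool.Agent.V11111.BE

noncomputable section

/-- the inverse of `fw β w` -/
def g1 (β : ℝ) (w : List ℕ) (x : ℝ) : ℝ := β ^ w.length * (x - fw β w 0)

/-- the coin map -/
def g2 : Option Bool → ℝ → ℝ
  | none, y => y
  | some false, y => 2 * y
  | some true, y => 2 * y - 1

/-- the tile of a word -/
def tile (β c : ℝ) (w : List ℕ) : Set ℝ := g1 β w ⁻¹' Icc 0 c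

/-- the coin interval -/
def jint (s : Option Bool) : Set ℝ := g2 s ⁻¹' Ico 0 1 ∩ Ico 0 1

/-- the coin weight -/
def qw : Option Bool → ℝ≥0∞
  | none => 1
  | some _ => ENNReal.ofReal (1 / 2)

/-- the weight of a branch -/
def pr (β : ℝ) (w : List ℕ) (s : Option Bool) : ℝ≥0∞ :=
  ENNReal.ofReal ((β ^ w.length)⁻¹) * qw s

/-- first factor -/
def mu1 (c : ℝ) : Measure ℝ := ENNReal.ofReal c⁻¹ • volume.restrict (Icc 0 c)

/-- second factor -/
def mu2 : Measure ℝ := volume.restrict (Ico 0 1)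

/-- the probability measure -/
def PP (c : ℝ) : Measure (ℝ × ℝ) := (mu1 c).prod mu2

lemma fw_g1 {β : ℝ} (hβ : 0 < β) (w : List ℕ) (x : ℝ) : fw β w (g1 β w x) = x := by
  rw [fw_eq hβ, g1]
  field_simp
  ring

lemma mu1_prob {c : ℝ} (hc : 0 < c) : IsProbabilityMeasure (mu1 c) := by
  constructor
  rw [mu1, Measure.smul_apply, Measure.restrict_apply_univ, Real.volume_Icc, sub_zero,
    smul_eq_mul, ← ENNReal.ofReal_mul (by positivity), inv_mul_cancel₀ hc.ne', ENNReal.ofReal_one]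

instance mu2_prob : IsProbabilityMeasure mu2 := by
  constructor
  rw [mu2, Measure.restrict_apply_univ, Real.volume_Ico]
  norm_num

lemma measurable_g1 (β : ℝ) (w : List ℕ) : Measurable (g1 β w) := by
  unfold g1; fun_prop

lemma measurable_g2 (s : Option Bool) : Measurable (g2 s) := by
  rcases s with _ | _ | _
  · exact measurable_id
  · show Measurable fun y : ℝ => 2 * y
    fun_prop
  · show Measurable fun y : ℝ => 2 * y - 1
    fun_prop

lemma map_affine {a t : ℝ} (ha : 0 < a) :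
    Measure.map (fun x : ℝ => a * (x - t)) volume = ENNReal.ofReal a⁻¹ • volume := by
  have h1 : (fun x : ℝ => a * (x - t)) = (fun x => a * x) ∘ (fun x => x - t) := rfl
  rw [h1, ← Measure.map_map (by fun_prop) (by fun_prop),
    (measurePreserving_sub_right volume t).map_eq, Real.map_volume_mul_left ha.ne',
    abs_of_pos (by positivity)]

lemma map_g1 {β : ℝ} (hβ : 0 < β) (w : List ℕ) :
    Measure.map (g1 β w) volume = ENNReal.ofReal ((β ^ w.length)⁻¹) • volume :=
  map_affine (by positivity)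

lemma map_g2 (s : Option Bool) : Measure.map (g2 s) volume = qw s • (volume : Measure ℝ) := by
  rcases s with _ | _ | _
  · show Measure.map (fun y : ℝ => y) volume = (1 : ℝ≥0∞) • volume
    rw [one_smul]
    exact Measure.map_id
  · have h := map_affine (a := 2) (t := 0) (by norm_num)
    have e : g2 (some false) = fun x : ℝ => 2 * (x - 0) := by
      funext y; show 2 * y = 2 * (y - 0); ring
    rw [e, h]
    show _ = ENNReal.ofReal (1 / 2) • volume
    norm_num
  · have h := map_affine (a := 2) (t := 1 / 2) (by norm_num)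
    have e : g2 (some true) = fun x : ℝ => 2 * (x - 1 / 2) := by
      funext y; show 2 * y - 1 = 2 * (y - 1 / 2); ring
    rw [e, h]
    show _ = ENNReal.ofReal (1 / 2) • volume
    norm_num

lemma jint_eq (s : Option Bool) : jint s = g2 s ⁻¹' Ico 0 1 := by
  unfold jint
  apply inter_eq_left.2
  intro y hy
  rcases s with _ | _ | _
  · exact hy
  · have h : 0 ≤ 2 * y ∧ 2 * y < 1 := hy
    exact ⟨by linarith [h.1], by linarith [h.2]⟩
  · have h : 0 ≤ 2 * y - 1 ∧ 2 * y - 1 < 1 := hy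
    exact ⟨by linarith [h.1], by linarith [h.2]⟩

lemma jint_disj (b : Bool) : Disjoint (jint (some b)) (jint (some (!b))) := by
  rw [jint_eq, jint_eq, Set.disjoint_left]
  intro y h1 h2
  rcases b with _ | _
  · have h : 0 ≤ 2 * y ∧ 2 * y < 1 := h1
    have h' : 0 ≤ 2 * y - 1 ∧ 2 * y - 1 < 1 := h2
    linarith [h.2, h'.1]
  · have h : 0 ≤ 2 * y - 1 ∧ 2 * y - 1 < 1 := h1
    have h' : 0 ≤ 2 * y ∧ 2 * y < 1 := h2
    linarith [h.1, h'.2]

variable {β c : ℝ} {m : ℕ}

lemma tile_sub (hβ : 0 < β) (hc : β * c = c + m) {w : List ℕ} (hw : ∀ k ∈ w, k ≤ m) :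
    tile β c w ⊆ Icc 0 c := by
  intro x hx
  rw [← fw_g1 hβ w x]
  exact fw_mem hβ hc hw hx

lemma map_mu1 (hβ : 0 < β) (hc : β * c = c + m) {w : List ℕ} (hw : ∀ k ∈ w, k ≤ m) :
    Measure.map (g1 β w) ((mu1 c).restrict (tile β c w))
      = ENNReal.ofReal ((β ^ w.length)⁻¹) • mu1 c := by
  have hms : MeasurableSet (tile β c w) := measurable_g1 β w measurableSet_Icc
  rw [mu1, Measure.restrict_smul, Measure.restrict_restrict hms,
    inter_eq_left.2 (tile_sub hβ hc hw), Measure.map_smul, tile,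
    ← Measure.restrict_map (measurable_g1 β w) measurableSet_Icc, map_g1 hβ,
    Measure.restrict_smul, smul_comm]

lemma map_mu2 (s : Option Bool) :
    Measure.map (g2 s) (mu2.restrict (jint s)) = qw s • mu2 := by
  have hms : MeasurableSet (g2 s ⁻¹' Ico 0 1) := measurable_g2 s measurableSet_Ico
  have hsub : g2 s ⁻¹' Ico 0 1 ⊆ Ico 0 1 := by
    rw [← jint_eq]; exact inter_subset_right
  rw [jint_eq, mu2, Measure.restrict_restrict hms, inter_eq_left.2 hsub,
    ← Measure.restrict_map (measurable_g2 s) measurableSet_Ico, map_g2, Measure.restrict_smul]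

lemma qw_ne_top (s : Option Bool) : qw s ≠ ⊤ := by
  rcases s with _ | _
  · exact ENNReal.one_ne_top
  · exact ENNReal.ofReal_ne_top

/-- the scaling identity of a branch -/
lemma branch (hβ : 0 < β) (hc0 : 0 < c) (hc : β * c = c + m) {w : List ℕ}
    (hw : ∀ k ∈ w, k ≤ m) (s : Option Bool) {B : Set (ℝ × ℝ)} (hB : MeasurableSet B) :
    PP c ((tile β c w ×ˢ jint s) ∩ (Prod.map (g1 β w) (g2 s)) ⁻¹' B) = pr β w s * PP c B := by
  have := mu1_prob hc0
  have hm1 := measurable_g1 β w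
  have hm2 := measurable_g2 s
  have h1 : Measure.map (Prod.map (g1 β w) (g2 s)) ((PP c).restrict (tile β c w ×ˢ jint s))
      = pr β w s • PP c := by
    rw [PP, ← Measure.prod_restrict, ← Measure.map_prod_map _ _ hm1 hm2, map_mu1 hβ hc hw,
      map_mu2]
    ext S hS
    rw [Measure.prod_apply hS]
    simp only [Measure.smul_apply, smul_eq_mul, lintegral_smul_measure]
    rw [Measure.prod_apply hS, lintegral_const_mul _ (measurable_measure_prodMk_left hS), pr,
      mul_assoc]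
  have h2 := congrArg (fun μ => μ B) h1
  simp only [Measure.smul_apply, smul_eq_mul] at h2
  rw [Measure.map_apply (hm1.prodMap hm2) hB,
    Measure.restrict_apply ((hm1.prodMap hm2) hB)] at h2
  rw [inter_comm]
  exact h2

/-- The combinatorial data. -/
structure Sys (β c : ℝ) (m : ℕ) where
  A : Type
  cA : Countable A
  w : A → List ℕ
  s : A → Option Bool
  flip : A ≃ A
  dig_le : ∀ a, ∀ k ∈ w a, k ≤ m
  ne : ∀ a, w a ≠ []
  dis : ∀ a a', a ≠ a' → Disjoint (tile β c (w a)) (tile β c (w a')) ∨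
    ((w a).head? ≠ (w a').head? ∧ ∃ b, s a = some b ∧ s a' = some (!b))
  tot : ∑' a, pr β (w a) (s a) = 1
  len : ∑' a, pr β (w a) (s a) * ((w a).length : ℝ≥0∞) ≠ ⊤
  split : ∃ a, s a ≠ none
  wflip : ∀ a, w (flip a) = mir m (w a)
  sflip : ∀ a, s (flip a) = s a

namespace Sys

variable (S : Sys β c m)

/-- rectangle of a branch -/
def rect (a : S.A) : Set (ℝ × ℝ) := tile β c (S.w a) ×ˢ jint (S.s a)

lemma rect_meas (a : S.A) : MeasurableSet (S.rect a) := by
  unfold rect
  apply MeasurableSet.prod (measurable_g1 _ _ measurableSet_Icc)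
  rw [jint_eq]
  exact measurable_g2 _ measurableSet_Ico

lemma rect_disj {a a' : S.A} (h : a ≠ a') : Disjoint (S.rect a) (S.rect a') := by
  rcases S.dis a a' h with h1 | ⟨-, b, h1, h2⟩
  · exact Set.disjoint_prod.2 (Or.inl h1)
  · apply Set.disjoint_prod.2
    right
    rw [h1, h2]
    exact jint_disj b

/-- all rectangles -/
def all : Set (ℝ × ℝ) := ⋃ a, S.rect a

/-- default index -/
def a0 : S.A := S.split.choose

open Classical in
/-- the branch index -/
def X (ω : ℝ × ℝ) : S.A := if h : ∃ a, ω ∈ S.rect a then h.choose else S.a0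

/-- the branch map -/
def R (ω : ℝ × ℝ) : ℝ × ℝ := Prod.map (g1 β (S.w (S.X ω))) (g2 (S.s (S.X ω))) ω

lemma X_eq {ω : ℝ × ℝ} {a : S.A} (h : ω ∈ S.rect a) : S.X ω = a := by
  have h1 : ∃ a, ω ∈ S.rect a := ⟨a, h⟩
  have h2 : S.X ω = h1.choose := by
    unfold X; rw [dif_pos h1]
  rw [h2]
  by_contra hne
  exact Set.disjoint_left.1 (S.rect_disj hne) h1.choose_spec h

lemma mem_rect {ω : ℝ × ℝ} (h : ω ∈ S.all) : ω ∈ S.rect (S.X ω) := by
  obtain ⟨a, ha⟩ := mem_iUnion.1 h
  rw [S.X_eq ha]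
  exact ha

lemma all_meas : MeasurableSet S.all := by
  have := S.cA
  exact MeasurableSet.iUnion S.rect_meas

lemma X_pre (a : S.A) : S.X ⁻¹' {a} ∩ S.all = S.rect a := by
  ext ω
  constructor
  · rintro ⟨h1, h2⟩
    have h3 : S.X ω = a := h1
    rw [← h3]
    exact S.mem_rect h2
  · intro h
    exact ⟨S.X_eq h, mem_iUnion.2 ⟨a, h⟩⟩

lemma X_meas_pre (a : S.A) : MeasurableSet (S.X ⁻¹' {a}) := by
  have h1 : S.X ⁻¹' {a} = S.rect a ∪ (S.X ⁻¹' {a} ∩ (S.all)ᶜ) := by
    rw [← S.X_pre a, inter_union_compl]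
  rw [h1]
  apply (S.rect_meas a).union
  by_cases h : a = S.a0
  · have h2 : S.X ⁻¹' {a} ∩ (S.all)ᶜ = (S.all)ᶜ := by
      apply inter_eq_right.2
      intro ω hω
      have h3 : ¬ ∃ a, ω ∈ S.rect a := fun ⟨a, ha⟩ => hω (mem_iUnion.2 ⟨a, ha⟩)
      show S.X ω = a
      unfold X; rw [dif_neg h3, h]
    rw [h2]
    exact S.all_meas.compl
  · have h2 : S.X ⁻¹' {a} ∩ (S.all)ᶜ = ∅ := by
      rw [eq_empty_iff_forall_notMem]
      rintro ω ⟨h4, hω⟩
      have h3 : ¬ ∃ a, ω ∈ S.rect a := fun ⟨a, ha⟩ => hω (mem_iUnion.2 ⟨a, ha⟩)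
      have h5 : S.X ω = a := h4
      apply h
      rw [← h5]
      unfold X; rw [dif_neg h3]
    rw [h2]
    exact MeasurableSet.empty

lemma rect_P (hβ : 0 < β) (hc0 : 0 < c) (hc : β * c = c + m) (a : S.A) {B : Set (ℝ × ℝ)}
    (hB : MeasurableSet B) :
    PP c (S.rect a ∩ (Prod.map (g1 β (S.w a)) (g2 (S.s a))) ⁻¹' B)
      = pr β (S.w a) (S.s a) * PP c B :=
  branch hβ hc0 hc (S.dig_le a) (S.s a) hB

lemma PP_prob (hc0 : 0 < c) : IsProbabilityMeasure (PP c) := by
  have := mu1_prob hc0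
  unfold PP
  infer_instance

lemma all_P (hβ : 0 < β) (hc0 : 0 < c) (hc : β * c = c + m) : PP c (S.all)ᶜ = 0 := by
  have := S.cA
  have := PP_prob hc0
  have h1 : PP c S.all = 1 := by
    unfold all
    rw [measure_iUnion (fun a a' h => S.rect_disj h) S.rect_meas, ← S.tot]
    apply tsum_congr
    intro a
    have h2 := S.rect_P hβ hc0 hc a MeasurableSet.univ
    rw [preimage_univ, inter_univ, measure_univ, mul_one] at h2
    exact h2
  rw [measure_compl S.all_meas (measure_ne_top _ _), h1, measure_univ, tsub_self]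

lemma key (hβ : 0 < β) (hc0 : 0 < c) (hc : β * c = c + m) (a : S.A) (B : Set (ℝ × ℝ))
    (hB : MeasurableSet B) :
    PP c (S.X ⁻¹' {a} ∩ S.R ⁻¹' B) = pr β (S.w a) (S.s a) * PP c B := by
  rw [← S.rect_P hβ hc0 hc a hB]
  have h0 := S.all_P hβ hc0 hc
  have h1 : PP c (S.X ⁻¹' {a} ∩ S.R ⁻¹' B)
      = PP c ((S.X ⁻¹' {a} ∩ S.R ⁻¹' B) ∩ S.all) := by
    rw [measure_inter_conull' (measure_mono_null (fun ω h => h.2) h0)]
  rw [h1]
  congr 1
  ext ω
  constructor
  · rintro ⟨⟨h2, h3⟩, h4⟩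
    have h5 : S.X ω = a := h2
    have h6 : ω ∈ S.rect a := by rw [← S.X_pre a]; exact ⟨h2, h4⟩
    refine ⟨h6, ?_⟩
    have h7 : S.R ω ∈ B := h3
    unfold R at h7
    rw [h5] at h7
    exact h7
  · rintro ⟨h2, h3⟩
    have h5 := S.X_eq h2
    refine ⟨⟨h5, ?_⟩, mem_iUnion.2 ⟨a, h2⟩⟩
    show S.R ω ∈ B
    unfold R
    rw [h5]
    exact h3

end Sys

end

end Pool.Agent.V11111.BE
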