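import Pool.Agent.V11111.BE.Tiles

open MeasureTheory Set Filter Topology
open scoped ENNReal

namespace Pool.Agent.V11111.BE

noncomputable section

variable {β c : ℝ} {m : ℕ}

/-- weight of a word -/
def wt (β : ℝ) (w : List ℕ) : ℝ≥0∞ := ENNReal.ofReal ((β ^ w.length)⁻¹)

/-- A family of words with disjoint tiles inside `U` and total length `δ`. -/
structure Til (β c : ℝ) (m : ℕ) (U : Set ℝ) (δ : ℝ) where
  K : Type
  cK : Countable K
  w : K → List ℕ
  dig : ∀ a, ∀ k ∈ w a, k ≤ m
  ne : ∀ a, w a ≠ []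
  sub : ∀ a, tile β c (w a) ⊆ U
  dis : ∀ a a', a ≠ a' → Disjoint (tile β c (w a)) (tile β c (w a'))
  tot : ∑' a, wt β (w a) = ENNReal.ofReal (δ / c)
  len : ∑' a, wt β (w a) * ((w a).length : ℝ≥0∞) ≠ ⊤

lemma tsum_sum_type {ι κ : Type*} (f : ι ⊕ κ → ℝ≥0∞) :
    ∑' i, f i = ∑' i, f (Sum.inl i) + ∑' i, f (Sum.inr i) :=
  Summable.tsum_sum ENNReal.summable ENNReal.summable

/-- union of two families -/
def Til.union {U V : Set ℝ} {δ δ' : ℝ} (S : Til β c m U δ) (T : Til β c m V δ')
    (h : Disjoint U V) (hc : 0 < c) (h1 : 0 ≤ δ) (h2 : 0 ≤ δ') : Til β c m (U ∪ V) (δ + δ') where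
  K := S.K ⊕ T.K
  cK := by
    have := S.cK
    have := T.cK
    infer_instance
  w := Sum.elim S.w T.w
  dig := by
    rintro (a | a)
    · exact S.dig a
    · exact T.dig a
  ne := by
    rintro (a | a)
    · exact S.ne a
    · exact T.ne a
  sub := by
    rintro (a | a)
    · exact (S.sub a).trans subset_union_left
    · exact (T.sub a).trans subset_union_right
  dis := by
    rintro (a | a) (a' | a') hne
    · exact S.dis a a' fun e => hne (by rw [e])
    · exact h.mono (S.sub a) (T.sub a')
    · exact h.symm.mono (T.sub a) (S.sub a')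
    · exact T.dis a a' fun e => hne (by rw [e])
  tot := by
    rw [tsum_sum_type]
    show ∑' a, wt β (S.w a) + ∑' a, wt β (T.w a) = _
    rw [S.tot, T.tot, ← ENNReal.ofReal_add (by positivity) (by positivity), add_div]
  len := by
    rw [tsum_sum_type]
    exact ENNReal.add_ne_top.2 ⟨S.len, T.len⟩

/-- putting a digit in front -/
def Til.cons {U : Set ℝ} {δ : ℝ} (S : Til β c m U δ) (j : ℕ) (hj : j ≤ m) (hβ : 0 < β)
    (hδ : 0 ≤ δ) (hc : 0 < c) : Til β c m {x | β * x - j ∈ U} (δ / β) where
  K := S.K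
  cK := S.cK
  w := fun a => j :: S.w a
  dig := by
    intro a k hk
    rcases List.mem_cons.1 hk with rfl | h
    · exact hj
    · exact S.dig a k h
  ne := fun a => by simp
  sub := by
    intro a x hx
    apply S.sub a
    have h : g1 β (j :: S.w a) x = g1 β (S.w a) (β * x - j) := by
      unfold g1
      rw [List.length_cons, fw_cons, pow_succ]
      field_simp
      ring
    show g1 β (S.w a) (β * x - j) ∈ Icc 0 c
    rw [← h]
    exact hx
  dis := by
    intro a a' hne
    have h : ∀ (a : S.K) (x : ℝ), g1 β (j :: S.w a) x = g1 β (S.w a) (β * x - j) := by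
      intro a x
      unfold g1
      rw [List.length_cons, fw_cons, pow_succ]
      field_simp
      ring
    rw [Set.disjoint_left]
    intro x hx hx'
    have h1 : g1 β (j :: S.w a) x ∈ Icc 0 c := hx
    have h2 : g1 β (j :: S.w a') x ∈ Icc 0 c := hx'
    rw [h] at h1 h2
    exact Set.disjoint_left.1 (S.dis a a' hne) h1 h2
  tot := by
    have h : ∀ a, wt β (j :: S.w a) = ENNReal.ofReal β⁻¹ * wt β (S.w a) := by
      intro a
      unfold wt
      rw [← ENNReal.ofReal_mul (by positivity), List.length_cons, pow_succ, mul_inv, mul_comm]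
    simp only [h]
    rw [ENNReal.tsum_mul_left, S.tot, ← ENNReal.ofReal_mul (by positivity)]
    congr 1
    field_simp
  len := by
    have h : ∀ a, wt β (j :: S.w a) * ((j :: S.w a).length : ℝ≥0∞)
        = ENNReal.ofReal β⁻¹ * (wt β (S.w a) * ((S.w a).length : ℝ≥0∞) + wt β (S.w a)) := by
      intro a
      unfold wt
      rw [List.length_cons, pow_succ, mul_inv, ENNReal.ofReal_mul (by positivity)]
      push_cast
      ring
    simp only [h]
    rw [ENNReal.tsum_mul_left, ENNReal.tsum_add, S.tot]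
    exact ENNReal.mul_ne_top ENNReal.ofReal_ne_top
      (ENNReal.add_ne_top.2 ⟨S.len, ENNReal.ofReal_ne_top⟩)

lemma ofReal_list_sum {α : Type*} (g : α → ℝ) (hg : ∀ a, 0 ≤ g a) (l : List α) :
    (l.map fun a => ENNReal.ofReal (g a)).sum = ENNReal.ofReal ((l.map g).sum) := by
  induction l with
  | nil => simp
  | cons a l ih =>
    rw [List.map_cons, List.sum_cons, List.map_cons, List.sum_cons, ih, ENNReal.ofReal_add (hg a)]
    apply List.sum_nonneg
    intro x hx
    obtain ⟨b, -, rfl⟩ := List.mem_map.1 hx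
    exact hg b

/-- the words of all generations -/
def allT (β c : ℝ) (m : ℕ) (p q : ℝ) : Set (List ℕ) := {w | ∃ d, w ∈ tiles β c m d p q}

lemma finset_sub {p q : ℝ} (F : Finset (List ℕ)) (hF : ∀ w ∈ F, w ∈ allT β c m p q) :
    ∃ d, ∀ w ∈ F, w ∈ tiles β c m d p q := by
  classical
  induction F using Finset.induction_on with
  | empty => exact ⟨0, by simp⟩
  | insert a s ha ih =>
    obtain ⟨d, hd⟩ := ih fun w hw => hF w (Finset.mem_insert_of_mem hw)
    obtain ⟨d', hd'⟩ := hF a (Finset.mem_insert_self _ _)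
    refine ⟨max d d', fun w hw => ?_⟩
    rcases Finset.mem_insert.1 hw with rfl | h
    · exact tiles_mono (le_max_right _ _) hd'
    · exact tiles_mono (le_max_left _ _) (hd w h)

lemma tsum_allT_le (P : Par β c m) {p q : ℝ} (hp : 0 ≤ p) (hpq : p < q) (hq : q ≤ c)
    (f : List ℕ → ℝ≥0∞) (B : ℝ≥0∞) (h : ∀ d, ((tiles β c m d p q).map f).sum ≤ B) :
    ∑' w : allT β c m p q, f w ≤ B := by
  classical
  rw [ENNReal.tsum_eq_iSup_sum]
  apply iSup_le
  intro s
  have h1 : ∑ a ∈ s, f a = ∑ w ∈ s.map (Function.Embedding.subtype _), f w := by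
    rw [Finset.sum_map]; rfl
  obtain ⟨d, hd⟩ := finset_sub (β := β) (c := c) (m := m) (p := p) (q := q)
    (s.map (Function.Embedding.subtype _)) (by
      intro w hw
      obtain ⟨a, -, rfl⟩ := Finset.mem_map.1 hw
      exact a.2)
  rw [h1]
  refine le_trans ?_ (h d)
  rw [← List.sum_toFinset f (tiles_nodup P d hp hpq hq)]
  apply Finset.sum_le_sum_of_subset
  intro w hw
  exact List.mem_toFinset.2 (hd w hw)

lemma le_tsum_allT (P : Par β c m) {p q : ℝ} (hp : 0 ≤ p) (hpq : p < q) (hq : q ≤ c)
    (f : List ℕ → ℝ≥0∞) (d : ℕ) :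
    ((tiles β c m d p q).map f).sum ≤ ∑' w : allT β c m p q, f w := by
  classical
  rw [← List.sum_toFinset f (tiles_nodup P d hp hpq hq), tsum_subtype (allT β c m p q) f]
  refine le_trans ?_ (ENNReal.sum_le_tsum (tiles β c m d p q).toFinset)
  apply Finset.sum_le_sum
  intro w hw
  rw [indicator_of_mem]
  exact ⟨d, List.mem_toFinset.1 hw⟩

/-- tiling of an interval -/
def mkTil (P : Par β c m) {p q : ℝ} (hp : 0 ≤ p) (hpq : p < q) (hq : q ≤ c) :
    Til β c m (Ioo p q) (q - p) where
  K := allT β c m p q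
  cK := inferInstance
  w := Subtype.val
  dig := by
    rintro ⟨w, d, hd⟩
    exact (tiles_sub P d p q hp hpq hq w hd).2.1
  ne := by
    rintro ⟨w, d, hd⟩
    exact (tiles_sub P d p q hp hpq hq w hd).1
  sub := by
    rintro ⟨w, d, hd⟩ x hx
    obtain ⟨-, -, h1, h2⟩ := tiles_sub P d p q hp hpq hq w hd
    have hx' : x ∈ tile β c w := hx
    rw [tile_eq P.hβ0] at hx'
    exact ⟨lt_of_lt_of_le h1 hx'.1, lt_of_le_of_lt hx'.2 h2⟩
  dis := by
    rintro ⟨w, d, hd⟩ ⟨w', d', hd'⟩ hne
    have h1 := tiles_mono (le_max_left d d') hd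
    have h2 := tiles_mono (le_max_right d d') hd'
    have hsym : Std.Symm (fun w w' : List ℕ => Disjoint (tile β c w) (tile β c w')) :=
      ⟨fun _ _ h => h.symm⟩
    exact (tiles_pw P (max d d') p q hp hpq hq).forall h1 h2 (fun e => hne (Subtype.ext e))
  tot := by
    have hβ0 := P.hβ0
    have hc0 := P.hc0
    have hcn : ENNReal.ofReal c ≠ 0 := by
      rw [Ne, ENNReal.ofReal_eq_zero, not_le]; exact hc0
    have hlist : ∀ d, ((tiles β c m d p q).map (wt β)).sum
        = ENNReal.ofReal (((tiles β c m d p q).map fun w => c / β ^ w.length).sum / c) := by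
      intro d
      have e : ((tiles β c m d p q).map (wt β)).sum = ENNReal.ofReal
          (((tiles β c m d p q).map fun w => (β ^ w.length)⁻¹).sum) :=
        ofReal_list_sum (fun w : List ℕ => (β ^ w.length)⁻¹) (fun w => by positivity) _
      rw [e]
      congr 1
      rw [eq_div_iff hc0.ne', ← List.sum_map_mul_right]
      congr 1
      apply List.map_congr_left
      intro w _
      field_simp
    apply le_antisymm
    · apply tsum_allT_le P hp hpq hq
      intro d
      rw [hlist]
      apply ENNReal.ofReal_le_ofReal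
      exact div_le_div_of_nonneg_right (sum_le P d p q hp hpq hq) hc0.le
    · have h1 : ∀ d : ℕ, ENNReal.ofReal ((1 - (1 - 1 / (4 * β)) ^ d) * (q - p) / c) ≤
          ∑' a : allT β c m p q, wt β a := by
        intro d
        refine le_trans ?_ (le_tsum_allT P hp hpq hq (wt β) d)
        rw [hlist]
        apply ENNReal.ofReal_le_ofReal
        exact div_le_div_of_nonneg_right (le_sum P d p q hp hpq hq) hc0.le
      have hr0 : 0 ≤ 1 - 1 / (4 * β) := by
        have : 1 / (4 * β) ≤ 1 := by
          rw [div_le_one (by positivity)]; linarith [P.hβ]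
        linarith
      have hr1 : 1 - 1 / (4 * β) < 1 := by
        have : 0 < 1 / (4 * β) := by positivity
        linarith
      have h2 : Tendsto (fun d : ℕ => ENNReal.ofReal ((1 - (1 - 1 / (4 * β)) ^ d) * (q - p) / c))
          atTop (𝓝 (ENNReal.ofReal ((1 - 0) * (q - p) / c))) := by
        apply ENNReal.tendsto_ofReal
        apply Tendsto.div_const
        apply Tendsto.mul_const
        exact tendsto_const_nhds.sub (tendsto_pow_atTop_nhds_zero_of_lt_one hr0 hr1)
      rw [sub_zero, one_mul] at h2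
      exact le_of_tendsto' h2 h1
  len := by
    have hβ0 := P.hβ0
    have h1 : ∑' a : allT β c m p q, wt β a * ((a : List ℕ).length : ℝ≥0∞) ≤
        ENNReal.ofReal (Phi β c (q - p)) := by
      apply tsum_allT_le P hp hpq hq (fun w => wt β w * (w.length : ℝ≥0∞))
      intro d
      have e : ((tiles β c m d p q).map fun w => wt β w * (w.length : ℝ≥0∞)).sum
          = ENNReal.ofReal (((tiles β c m d p q).map
            fun w => (β ^ w.length)⁻¹ * (w.length : ℝ)).sum) := by
        rw [← ofReal_list_sum (fun w : List ℕ => (β ^ w.length)⁻¹ * (w.length : ℝ))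
          (fun w => by positivity)]
        congr 1
        apply List.map_congr_left
        intro w _
        unfold wt
        rw [ENNReal.ofReal_mul (by positivity), ENNReal.ofReal_natCast]
      rw [e]
      exact ENNReal.ofReal_le_ofReal (sum_len_le P d p q hp hpq hq)
    exact ne_top_of_le_ne_top ENNReal.ofReal_ne_top h1

end

end Pool.Agent.V11111.BE
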