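import Pool.Agent.V11111.BE.Sys

open MeasureTheory Set Filter Topology
open scoped ENNReal

namespace Pool.Agent.V11111.BE

noncomputable section

/-- left end of a tile -/
def lo (β : ℝ) (w : List ℕ) : ℝ := fw β w 0

/-- right end of a tile -/
def hi (β c : ℝ) (w : List ℕ) : ℝ := fw β w 0 + c / β ^ w.length

variable {β c : ℝ} {m : ℕ}

lemma tile_eq (hβ : 0 < β) (w : List ℕ) : tile β c w = Icc (lo β w) (hi β c w) := by
  have hp : 0 < β ^ w.length := by positivity
  ext x
  show (0 ≤ β ^ w.length * (x - fw β w 0) ∧ β ^ w.length * (x - fw β w 0) ≤ c) ↔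
    (fw β w 0 ≤ x ∧ x ≤ fw β w 0 + c / β ^ w.length)
  constructor
  · rintro ⟨h1, h2⟩
    have h3 := nonneg_of_mul_nonneg_right h1 hp
    have h4 : x - fw β w 0 ≤ c / β ^ w.length := by
      rw [le_div_iff₀ hp, mul_comm]; exact h2
    constructor <;> linarith
  · rintro ⟨h1, h2⟩
    have h4 : x - fw β w 0 ≤ c / β ^ w.length := by linarith
    rw [le_div_iff₀ hp, mul_comm] at h4
    exact ⟨mul_nonneg hp.le (by linarith), h4⟩

lemma lo_lt_hi (hβ : 0 < β) (hc0 : 0 < c) (w : List ℕ) : lo β w < hi β c w := by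
  have : 0 < c / β ^ w.length := by positivity
  unfold lo hi
  linarith

/-- a word placed in the middle of a gap -/
structure Spec (β c : ℝ) (m : ℕ) (p q : ℝ) (w : List ℕ) : Prop where
  ne : w ≠ []
  dig : ∀ k ∈ w, k ≤ m
  lo_ge : p + (q - p) / 4 ≤ lo β w
  hi_le : hi β c w ≤ q - (q - p) / 4
  big : q - p ≤ (4 * β) * (c / β ^ w.length)

lemma exists_spec (hβ : 1 < β) (hc : β * c = c + m) (hc1 : 1 ≤ c) {p q : ℝ} (hp : 0 ≤ p)
    (hpq : p < q) (hq : q ≤ c) : ∃ w, Spec β c m p q w := by
  have hβ0 : 0 < β := by linarith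
  have hd : 0 < q - p := by linarith
  have hx : 1 ≤ 4 * c / (q - p) := by
    rw [le_div_iff₀ hd]; linarith
  obtain ⟨n, hn1, hn2⟩ := exists_nat_pow_near hx hβ
  obtain ⟨w, hwl, hwd, z, hz, hzx⟩ := exists_word hβ hc hc1 (n + 1) ((p + q) / 2)
    ⟨by linarith, by linarith⟩
  have hpow : 0 < β ^ (n + 1) := by positivity
  have h1 : c / β ^ (n + 1) ≤ (q - p) / 4 := by
    rw [div_lt_iff₀ hd] at hn2
    rw [div_le_iff₀ hpow]
    linarith
  have h2 : z / β ^ (n + 1) ≤ c / β ^ (n + 1) := div_le_div_of_nonneg_right hz.2 hpow.le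
  have h3 : 0 ≤ z / β ^ (n + 1) := div_nonneg hz.1 hpow.le
  rw [fw_eq hβ0, hwl] at hzx
  refine ⟨w, ?_, hwd, ?_, ?_, ?_⟩
  · intro h
    rw [h] at hwl
    simp at hwl
  · unfold lo
    linarith
  · unfold hi
    rw [hwl]
    linarith
  · rw [hwl, pow_succ]
    rw [le_div_iff₀ hd] at hn1
    have h4 : 4 * β * (c / (β ^ n * β)) = 4 * c / β ^ n := by field_simp
    rw [h4, le_div_iff₀ (by positivity)]
    linarith

open Classical in
/-- chosen word in a gap -/
def ch (β c : ℝ) (m : ℕ) (p q : ℝ) : List ℕ :=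
  if h : ∃ w, Spec β c m p q w then h.choose else []

lemma ch_spec (hβ : 1 < β) (hc : β * c = c + m) (hc1 : 1 ≤ c) {p q : ℝ} (hp : 0 ≤ p)
    (hpq : p < q) (hq : q ≤ c) : Spec β c m p q (ch β c m p q) := by
  have h := exists_spec hβ hc hc1 hp hpq hq
  unfold ch
  rw [dif_pos h]
  exact h.choose_spec

/-- the words placed in the first `d` generations of gaps -/
def tiles (β c : ℝ) (m : ℕ) : ℕ → ℝ → ℝ → List (List ℕ)
  | 0, _, _ => []
  | d + 1, p, q => ch β c m p q :: (tiles β c m d p (lo β (ch β c m p q)) ++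
      tiles β c m d (hi β c (ch β c m p q)) q)

lemma tiles_mem_succ {d : ℕ} {p q : ℝ} {w : List ℕ} : w ∈ tiles β c m (d + 1) p q ↔
    w = ch β c m p q ∨ w ∈ tiles β c m d p (lo β (ch β c m p q)) ∨
      w ∈ tiles β c m d (hi β c (ch β c m p q)) q := by
  show w ∈ _ :: (_ ++ _) ↔ _
  rw [List.mem_cons, List.mem_append]

/-- standing assumptions -/
structure Par (β c : ℝ) (m : ℕ) : Prop where
  hβ : 1 < β
  hc : β * c = c + m
  hc1 : 1 ≤ c

lemma Par.hβ0 (P : Par β c m) : 0 < β := by linarith [P.hβ]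
lemma Par.hc0 (P : Par β c m) : 0 < c := by linarith [P.hc1]

lemma Par.ch (P : Par β c m) {p q : ℝ} (hp : 0 ≤ p) (hpq : p < q) (hq : q ≤ c) :
    Spec β c m p q (BE.ch β c m p q) := ch_spec P.hβ P.hc P.hc1 hp hpq hq

/-- the geometry of a gap after placing the word -/
lemma Par.geo (P : Par β c m) {p q : ℝ} (hp : 0 ≤ p) (hpq : p < q) (hq : q ≤ c) :
    p < lo β (BE.ch β c m p q) ∧ lo β (BE.ch β c m p q) < hi β c (BE.ch β c m p q) ∧
      hi β c (BE.ch β c m p q) < q := by
  have h := P.ch hp hpq hq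
  have h1 := h.lo_ge
  have h2 := h.hi_le
  exact ⟨by linarith, lo_lt_hi P.hβ0 P.hc0 _, by linarith⟩

lemma tiles_sub (P : Par β c m) (d : ℕ) : ∀ p q : ℝ, 0 ≤ p → p < q → q ≤ c →
    ∀ w ∈ tiles β c m d p q, w ≠ [] ∧ (∀ k ∈ w, k ≤ m) ∧ p < lo β w ∧ hi β c w < q := by
  induction d with
  | zero => intro p q _ _ _ w hw; exact absurd hw (by simp [tiles])
  | succ d ih =>
    intro p q hp hpq hq w hw
    have h := P.ch hp hpq hq
    obtain ⟨g1, g2, g3⟩ := P.geo hp hpq hq
    rcases tiles_mem_succ.1 hw with h1 | h1 | h1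
    · rw [h1]
      exact ⟨h.ne, h.dig, g1, g3⟩
    · obtain ⟨a1, a2, a3, a4⟩ := ih _ _ hp g1 (by linarith) w h1
      exact ⟨a1, a2, a3, by linarith⟩
    · obtain ⟨a1, a2, a3, a4⟩ := ih _ _ (by linarith) g3 hq w h1
      exact ⟨a1, a2, by linarith, a4⟩

lemma tiles_pw (P : Par β c m) (d : ℕ) : ∀ p q : ℝ, 0 ≤ p → p < q → q ≤ c →
    (tiles β c m d p q).Pairwise (fun w w' => Disjoint (tile β c w) (tile β c w')) := by
  induction d with
  | zero => intro p q _ _ _; exact List.Pairwise.nil
  | succ d ih =>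
    intro p q hp hpq hq
    obtain ⟨g1, g2, g3⟩ := P.geo hp hpq hq
    show (_ :: (_ ++ _)).Pairwise _
    rw [List.pairwise_cons, List.pairwise_append]
    refine ⟨?_, ih _ _ hp g1 (by linarith), ih _ _ (by linarith) g3 hq, ?_⟩
    · intro w hw
      rw [tile_eq P.hβ0, tile_eq P.hβ0, Set.disjoint_left]
      intro x hx hx'
      rcases List.mem_append.1 hw with h1 | h1
      · obtain ⟨a1, a2, a3, a4⟩ := tiles_sub P d _ _ hp g1 (by linarith) w h1
        linarith [hx.1, hx'.2]
      · obtain ⟨a1, a2, a3, a4⟩ := tiles_sub P d _ _ (by linarith) g3 hq w h1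
        linarith [hx.2, hx'.1]
    · intro w hw w' hw'
      rw [tile_eq P.hβ0, tile_eq P.hβ0, Set.disjoint_left]
      intro x hx hx'
      obtain ⟨a1, a2, a3, a4⟩ := tiles_sub P d _ _ hp g1 (by linarith) w hw
      obtain ⟨b1, b2, b3, b4⟩ := tiles_sub P d _ _ (by linarith) g3 hq w' hw'
      linarith [hx.2, hx'.1]

lemma tiles_nodup (P : Par β c m) (d : ℕ) {p q : ℝ} (hp : 0 ≤ p) (hpq : p < q) (hq : q ≤ c) :
    (tiles β c m d p q).Nodup := by
  refine (tiles_pw P d p q hp hpq hq).imp ?_
  intro w w' h hww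
  rw [hww, disjoint_self, tile_eq P.hβ0] at h
  exact absurd h (nonempty_Icc.2 (lo_lt_hi P.hβ0 P.hc0 w').le).ne_empty

lemma tiles_succ (d : ℕ) : ∀ p q : ℝ, ∀ w ∈ tiles β c m d p q, w ∈ tiles β c m (d + 1) p q := by
  induction d with
  | zero => intro p q w hw; exact absurd hw (by simp [tiles])
  | succ d ih =>
    intro p q w hw
    rw [tiles_mem_succ] at hw ⊢
    rcases hw with h | h | h
    · exact Or.inl h
    · exact Or.inr (Or.inl (ih _ _ _ h))
    · exact Or.inr (Or.inr (ih _ _ _ h))

lemma tiles_mono {d d' : ℕ} (h : d ≤ d') {p q : ℝ} {w : List ℕ} (hw : w ∈ tiles β c m d p q) :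
    w ∈ tiles β c m d' p q := by
  induction h with
  | refl => exact hw
  | step _ ih => exact tiles_succ _ _ _ _ ih

/-- total length of the tiles -/
lemma sum_le (P : Par β c m) (d : ℕ) : ∀ p q : ℝ, 0 ≤ p → p < q → q ≤ c →
    ((tiles β c m d p q).map fun w => c / β ^ w.length).sum ≤ q - p := by
  induction d with
  | zero => intro p q _ h _; simp [tiles]; linarith
  | succ d ih =>
    intro p q hp hpq hq
    obtain ⟨g1, g2, g3⟩ := P.geo hp hpq hq
    have h1 := ih _ _ hp g1 (by linarith)
    have h2 := ih _ _ (by linarith) g3 hq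
    have e : ((tiles β c m (d + 1) p q).map fun w => c / β ^ w.length).sum
        = c / β ^ (ch β c m p q).length +
        (((tiles β c m d p (lo β (ch β c m p q))).map fun w => c / β ^ w.length).sum +
        ((tiles β c m d (hi β c (ch β c m p q)) q).map fun w => c / β ^ w.length).sum) := by
      show ((_ :: (_ ++ _)).map _).sum = _
      rw [List.map_cons, List.sum_cons, List.map_append, List.sum_append]
    rw [e]
    have e2 : hi β c (ch β c m p q) = lo β (ch β c m p q) + c / β ^ (ch β c m p q).length := rfl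
    linarith

lemma le_sum (P : Par β c m) (d : ℕ) : ∀ p q : ℝ, 0 ≤ p → p < q → q ≤ c →
    (1 - (1 - 1 / (4 * β)) ^ d) * (q - p) ≤
      ((tiles β c m d p q).map fun w => c / β ^ w.length).sum := by
  have hβ0 := P.hβ0
  have hr : 0 ≤ 1 - 1 / (4 * β) := by
    have : 1 / (4 * β) ≤ 1 := by
      rw [div_le_one (by positivity)]; linarith [P.hβ]
    linarith
  induction d with
  | zero => intro p q _ h _; simp [tiles]
  | succ d ih =>
    intro p q hp hpq hq
    obtain ⟨g1, g2, g3⟩ := P.geo hp hpq hq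
    have h1 := ih _ _ hp g1 (by linarith)
    have h2 := ih _ _ (by linarith) g3 hq
    have e : ((tiles β c m (d + 1) p q).map fun w => c / β ^ w.length).sum
        = c / β ^ (ch β c m p q).length +
        (((tiles β c m d p (lo β (ch β c m p q))).map fun w => c / β ^ w.length).sum +
        ((tiles β c m d (hi β c (ch β c m p q)) q).map fun w => c / β ^ w.length).sum) := by
      show ((_ :: (_ ++ _)).map _).sum = _
      rw [List.map_cons, List.sum_cons, List.map_append, List.sum_append]
    rw [e]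
    have e2 : hi β c (ch β c m p q) = lo β (ch β c m p q) + c / β ^ (ch β c m p q).length := rfl
    have h3 := (P.ch hp hpq hq).big
    set L := c / β ^ (ch β c m p q).length with hL
    have h4 : (q - p) - L ≤ (1 - 1 / (4 * β)) * (q - p) := by
      have h5 : 1 / (4 * β) * (q - p) ≤ L := by
        rw [div_mul_eq_mul_div, one_mul, div_le_iff₀ (by positivity)]
        linarith
      linarith
    have h6 : 0 ≤ (1 - 1 / (4 * β)) ^ d := pow_nonneg hr d
    have h7 := mul_le_mul_of_nonneg_left h4 h6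
    rw [pow_succ]
    nlinarith

/-- the potential bounding the mean length -/
def Phi (β c δ : ℝ) : ℝ :=
  1 / (c * Real.log β) * (δ * ((4 * β * Real.log 4 + Real.log (4 * β * c)) - Real.log δ))

lemma sum_len_le (P : Par β c m) (d : ℕ) : ∀ p q : ℝ, 0 ≤ p → p < q → q ≤ c →
    ((tiles β c m d p q).map fun w => (β ^ w.length)⁻¹ * (w.length : ℝ)).sum ≤ Phi β c (q - p) := by
  have hβ0 := P.hβ0
  have hc0 := P.hc0
  have hβ1 := P.hβ
  have hlog : 0 < Real.log β := Real.log_pos P.hβ
  have hlog4 : 0 < Real.log 4 := Real.log_pos (by norm_num)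
  induction d with
  | zero =>
    intro p q hp h hq
    simp only [tiles, List.map_nil, List.sum_nil]
    unfold Phi
    have h1 : Real.log (q - p) ≤ Real.log (4 * β * c) := by
      apply Real.log_le_log (by linarith)
      nlinarith
    have h2 : 0 < q - p := by linarith
    have h3 : 0 ≤ 4 * β * Real.log 4 := by positivity
    apply mul_nonneg (by positivity)
    apply mul_nonneg h2.le
    linarith
  | succ d ih =>
    intro p q hp hpq hq
    obtain ⟨g1, g2, g3⟩ := P.geo hp hpq hq
    have hs := P.ch hp hpq hq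
    have h1 := ih _ _ hp g1 (by linarith)
    have h2 := ih _ _ (by linarith) g3 hq
    have e : ((tiles β c m (d + 1) p q).map fun w => (β ^ w.length)⁻¹ * (w.length : ℝ)).sum
        = (β ^ (ch β c m p q).length)⁻¹ * ((ch β c m p q).length : ℝ) +
        (((tiles β c m d p (lo β (ch β c m p q))).map
          fun w => (β ^ w.length)⁻¹ * (w.length : ℝ)).sum +
        ((tiles β c m d (hi β c (ch β c m p q)) q).map
          fun w => (β ^ w.length)⁻¹ * (w.length : ℝ)).sum) := by
      show ((_ :: (_ ++ _)).map _).sum = _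
      rw [List.map_cons, List.sum_cons, List.map_append, List.sum_append]
    rw [e]
    have e2 : hi β c (ch β c m p q) = lo β (ch β c m p q) + c / β ^ (ch β c m p q).length := rfl
    have hlo := hs.lo_ge
    have hhi := hs.hi_le
    have hbig := hs.big
    set w := ch β c m p q with hw
    set n := w.length with hn
    set L := c / β ^ n with hL
    have hpow : 0 < β ^ n := by positivity
    have hL0 : 0 < L := by positivity
    set δ := q - p with hδ
    have hδ0 : 0 < δ := by rw [hδ]; linarith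
    set E := Real.log (4 * β * c) with hE
    -- bound of the length
    have hlen : (n : ℝ) * Real.log β ≤ E - Real.log δ := by
      have h3 : β ^ n * δ ≤ 4 * β * c := by
        rw [hL] at hbig
        have : 4 * β * (c / β ^ n) = 4 * β * c / β ^ n := by ring
        rw [this, le_div_iff₀ hpow] at hbig
        linarith
      have h4 := Real.log_le_log (by positivity) h3
      rw [Real.log_mul hpow.ne' hδ0.ne', Real.log_pow] at h4
      linarith
    have hf : (β ^ n)⁻¹ * (n : ℝ) ≤ 1 / (c * Real.log β) * (L * (E - Real.log δ)) := by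
      have h5 : (β ^ n)⁻¹ * (n : ℝ) = 1 / (c * Real.log β) * (L * (n * Real.log β)) := by
        rw [hL]; field_simp
      rw [h5]
      apply mul_le_mul_of_nonneg_left _ (by positivity)
      exact mul_le_mul_of_nonneg_left hlen hL0.le
    have hsub : ∀ x : ℝ, δ / 4 ≤ x → Phi β c x ≤ 1 / (c * Real.log β) *
        (x * ((4 * β * Real.log 4 + E) - Real.log δ + Real.log 4)) := by
      intro x hx
      unfold Phi
      have h6 : Real.log (δ / 4) ≤ Real.log x := Real.log_le_log (by positivity) hx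
      rw [Real.log_div hδ0.ne' (by norm_num)] at h6
      apply mul_le_mul_of_nonneg_left _ (by positivity)
      apply mul_le_mul_of_nonneg_left _ (by linarith)
      linarith
    have h7 := hsub (lo β w - p) (by linarith)
    have h8 := hsub (q - hi β c w) (by linarith)
    have hA : 0 < 1 / (c * Real.log β) := by positivity
    set A := 1 / (c * Real.log β) with hAdef
    have hfin : L * (E - Real.log δ) + ((lo β w - p) * ((4 * β * Real.log 4 + E) - Real.log δ
        + Real.log 4) + (q - hi β c w) * ((4 * β * Real.log 4 + E) - Real.log δ + Real.log 4))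
        ≤ δ * ((4 * β * Real.log 4 + E) - Real.log δ) := by
      have h9 : (lo β w - p) + (q - hi β c w) = δ - L := by rw [e2, hδ]; ring
      rw [← add_mul, h9]
      have h10 : (δ - L) * Real.log 4 ≤ 4 * β * L * Real.log 4 := by
        apply mul_le_mul_of_nonneg_right _ hlog4.le
        linarith
      nlinarith
    have h11 := mul_le_mul_of_nonneg_left hfin hA.le
    have h12 : Phi β c δ = A * (δ * ((4 * β * Real.log 4 + E) - Real.log δ)) := rfl
    rw [h12]
    nlinarith

end

end Pool.Agent.V11111.BE
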